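import Mathlib
import Pool.Agent.X4.JB.Cantor

set_option autoImplicit false

/-!
If almost every point is close to a point of `T` of height at most `X`, for all large `X`, then `T`
contains many well spaced points; limsup sets for `T` are large.
-/

namespace Pool.Agent.X124.MD

open MeasureTheory Filter Topology Metric Pool.Agent.X4.JB

theorem rich_of_ae {T : Set (ℝ × ℝ)} {γ γ' : ℝ} (hγ : 0 < γ) (hγ' : γ < γ')
    (h : ∀ᵐ x : ℝ, x ∈ Set.Icc (0 : ℝ) 1 → ∃ K : ℝ, ∀ X : ℝ, K ≤ X →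
      ∃ y, (y, X) ∈ T ∧ |x - y| ≤ X ^ (-γ')) : Rich γ (1 / 8) T := by
  classical
  intro θ1 θ2 h0 h12 h1
  set L : ℝ := θ2 - θ1 with hL
  have hL0 : 0 < L := by linarith
  set I : Set ℝ := Set.Icc (θ1 + L / 8) (θ2 - L / 8) with hI
  set G : ℕ → Set ℝ := fun n => {x | x ∈ I ∧ ∀ X : ℝ, (n : ℝ) ≤ X →
    ∃ y, (y, X) ∈ T ∧ |x - y| ≤ X ^ (-γ')} with hG
  have hmono : Monotone G := by
    intro m n hmn x hx
    refine ⟨hx.1, fun X hX => hx.2 X (le_trans ?_ hX)⟩
    exact_mod_cast hmn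
  have hvol : ENNReal.ofReal (3 * L / 4) ≤ volume (⋃ n, G n) := by
    have e1 : volume I = ENNReal.ofReal (3 * L / 4) := by
      rw [hI, Real.volume_Icc]
      congr 1
      rw [hL]; ring
    rw [← e1]
    apply measure_mono_ae
    filter_upwards [h] with x hx hxI
    have hxI' : θ1 + L / 8 ≤ x ∧ x ≤ θ2 - L / 8 := hxI
    obtain ⟨K, hK⟩ := hx ⟨by linarith [hxI'.1], by linarith [hxI'.2]⟩
    obtain ⟨n, hn⟩ := exists_nat_ge K
    exact Set.mem_iUnion.2 ⟨n, hxI, fun X hX => hK X (hn.trans hX)⟩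
  have hlt : ENNReal.ofReal (L / 2) < volume (⋃ n, G n) := by
    refine lt_of_lt_of_le ?_ hvol
    rw [ENNReal.ofReal_lt_ofReal_iff (by linarith)]
    linarith
  obtain ⟨n, hn⟩ := ((tendsto_measure_iUnion_atTop hmono).eventually (lt_mem_nhds hlt)).exists
  have ht : ∀ᶠ X : ℝ in atTop, X ^ (-γ') < L / 16 :=
    (tendsto_rpow_neg_atTop (by linarith : 0 < γ')).eventually (gt_mem_nhds (by linarith))
  obtain ⟨X1, hX1⟩ := (ht.and (eventually_ge_atTop 1)).exists_forall_of_atTop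
  refine ⟨max X1 n, fun X hX => ?_⟩
  obtain ⟨hρL, hXone⟩ := hX1 X ((le_max_left _ _).trans hX)
  have hXn : (n : ℝ) ≤ X := (le_max_right _ _).trans hX
  have hX0 : 0 < X := by linarith
  set R : ℝ := X ^ (-γ) with hR
  set ρ : ℝ := X ^ (-γ') with hρ
  have hR0 : 0 < R := Real.rpow_pos_of_pos hX0 _
  have hρR : ρ ≤ R := Real.rpow_le_rpow_of_exponent_le hXone (by linarith)
  have hρ0 : 0 < ρ := Real.rpow_pos_of_pos hX0 _
  -- maximal separated sets
  set P : Finset ℝ → Prop := fun F => (∀ z ∈ F, θ1 < z ∧ z < θ2 ∧ (z, X) ∈ T) ∧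
    ∀ z ∈ F, ∀ w ∈ F, z ≠ w → R ≤ |z - w| with hP
  have hbdd : ∀ F, P F → F.card ≤ ⌈2 * 1 / R + 1⌉₊ := by
    intro F hF
    have h2 := sep_count (C := F) (e := R) (x := 1 / 2) (R := 1) hR0 zero_le_one (by
      intro y hy
      obtain ⟨a, b, -⟩ := hF.1 y hy
      rw [abs_lt]
      constructor <;> linarith) hF.2
    have h3 := h2.trans (Nat.le_ceil _)
    exact_mod_cast h3
  obtain ⟨F, hF, hFmax⟩ : ∃ F, P F ∧ ∀ F', P F' → F'.card ≤ F.card := by
    have hne : {m : ℕ | ∃ F, P F ∧ F.card = m}.Nonempty :=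
      ⟨0, ∅, ⟨by simp, by simp⟩, by simp⟩
    have hbd : BddAbove {m : ℕ | ∃ F, P F ∧ F.card = m} := by
      refine ⟨⌈2 * 1 / R + 1⌉₊, ?_⟩
      rintro m ⟨F, hF, rfl⟩
      exact hbdd F hF
    obtain ⟨F, hF, hc⟩ := Nat.sSup_mem hne hbd
    refine ⟨F, hF, fun F' hF' => ?_⟩
    rw [hc]
    exact le_csSup hbd ⟨F', hF', rfl⟩
  have hnear : ∀ y, θ1 < y → y < θ2 → (y, X) ∈ T → ∃ z ∈ F, |y - z| < R := by
    intro y hy1 hy2 hyT
    by_contra hcon
    push Not at hcon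
    have hyF : y ∉ F := by
      intro hyF
      have := hcon y hyF
      rw [sub_self, abs_zero] at this
      linarith
    have h2 := hFmax (insert y F) ⟨by
      intro z hz
      rcases Finset.mem_insert.1 hz with rfl | hz
      · exact ⟨hy1, hy2, hyT⟩
      · exact hF.1 z hz, by
      intro z hz w hw hzw
      rcases Finset.mem_insert.1 hz with hz' | hz'
      · rcases Finset.mem_insert.1 hw with hw' | hw'
        · exact (hzw (hz'.trans hw'.symm)).elim
        · rw [hz']; exact hcon w hw'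
      · rcases Finset.mem_insert.1 hw with hw' | hw'
        · rw [hw', abs_sub_comm]; exact hcon z hz'
        · exact hF.2 z hz' w hw' hzw⟩
    rw [Finset.card_insert_of_notMem hyF] at h2
    omega
  have hcov : G n ⊆ ⋃ z ∈ F, closedBall z (R + ρ) := by
    rintro x ⟨hxI, hx⟩
    have hxI' : θ1 + L / 8 ≤ x ∧ x ≤ θ2 - L / 8 := hxI
    obtain ⟨y, hyT, hxy⟩ := hx X hXn
    have hxy' : |x - y| ≤ ρ := hxy
    rw [abs_le] at hxy
    obtain ⟨z, hz, hyz⟩ := hnear y (by linarith [hxI'.1]) (by linarith [hxI'.2]) hyT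
    refine Set.mem_biUnion hz ?_
    rw [mem_closedBall, Real.dist_eq]
    have h3 := abs_add_le (x - y) (y - z)
    rw [sub_add_sub_cancel] at h3
    linarith
  have hm : volume (G n) ≤ ENNReal.ofReal ((F.card : ℝ) * (4 * R)) := by
    refine (measure_mono hcov).trans ((measure_biUnion_finset_le _ _).trans ?_)
    have : ∀ z ∈ F, volume (closedBall z (R + ρ)) ≤ ENNReal.ofReal (4 * R) := by
      intro z _
      rw [Real.volume_closedBall]
      apply ENNReal.ofReal_le_ofReal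
      linarith
    refine (Finset.sum_le_sum this).trans ?_
    rw [Finset.sum_const, nsmul_eq_mul, ← ENNReal.ofReal_natCast, ← ENNReal.ofReal_mul
      (Nat.cast_nonneg _)]
  have hcard : L / 2 < (F.card : ℝ) * (4 * R) := by
    have := lt_of_lt_of_le hn hm
    by_contra hcon
    push Not at hcon
    exact absurd this (not_lt.2 (ENNReal.ofReal_le_ofReal hcon))
  refine ⟨F, ?_, hF.2, fun x hx => ?_⟩
  · have hRX : R * X ^ γ = 1 := by
      rw [hR, ← Real.rpow_add hX0, neg_add_cancel, Real.rpow_zero]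
    have hXγ : 0 < X ^ γ := Real.rpow_pos_of_pos hX0 _
    have h4 : L / 2 * X ^ γ ≤ (F.card : ℝ) * 4 := by
      calc L / 2 * X ^ γ ≤ (F.card : ℝ) * (4 * R) * X ^ γ :=
            mul_le_mul_of_nonneg_right hcard.le hXγ.le
        _ = (F.card : ℝ) * 4 * (R * X ^ γ) := by ring
        _ = _ := by rw [hRX, mul_one]
    linarith
  · obtain ⟨a, b, c⟩ := hF.1 x hx
    exact ⟨a, b, X, c, by linarith, le_refl _⟩

/-- the dimension of the limsup set, up to a countable set -/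
theorem dim_ge {T : Set (ℝ × ℝ)} {γ : ℝ} (hγ : 0 < γ)
    (h : ∀ γ' : ℝ, γ' < γ → ∀ᵐ x : ℝ, x ∈ Set.Icc (0 : ℝ) 1 → ∃ K : ℝ, ∀ X : ℝ, K ≤ X →
      ∃ y, (y, X) ∈ T ∧ |x - y| ≤ X ^ (-γ')) {A E : Set ℝ} (hA : A.Countable) {σ : ℝ} (hσ : γ ≤ σ)
    (hE : ∀ τ : ℝ, σ < τ → Lset T τ ∩ Set.Icc 0 1 ⊆ A ∪ E) :
    ENNReal.ofReal (γ / σ) ≤ dimH E := by
  have hσ0 : 0 < σ := lt_of_lt_of_le hγ hσ
  -- all smaller exponents
  have key : ∀ t : ℝ, 0 < t → t * σ < γ → ENNReal.ofReal t ≤ dimH E := by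
    intro t ht htσ
    obtain ⟨g, hg1, hg2⟩ := exists_between htσ
    have hg0 : 0 < g := by nlinarith
    obtain ⟨g', hg3, hg4⟩ := exists_between hg2
    have hR := rich_of_ae hg0 hg3 (h g' hg4)
    obtain ⟨τ, hτ1, hτ2⟩ : ∃ τ, σ < τ ∧ t * τ < g := by
      refine ⟨(σ + g / t) / 2, ?_, ?_⟩
      · have : σ < g / t := by rw [lt_div_iff₀ ht]; linarith
        linarith
      · have h1 : t * (g / t) = g := by field_simp
        have h2 : t * ((σ + g / t) / 2) = (t * σ + t * (g / t)) / 2 := by ring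
        rw [h2, h1]
        linarith
    have h3 := cantor hR hg0 (by norm_num) (by linarith) ht hτ2
    have h4 := h3.trans (dimH_mono (hE τ hτ1))
    rw [dimH_union, dimH_countable hA] at h4
    simpa using h4
  refine le_of_forall_lt fun c hc => ?_
  have hct : c ≠ ⊤ := ne_top_of_lt hc
  rw [← ENNReal.ofReal_toReal hct] at hc ⊢
  rw [ENNReal.ofReal_lt_ofReal_iff (by positivity)] at hc
  obtain ⟨t, ht1, ht2⟩ := exists_between hc
  have ht0 : 0 < t := lt_of_le_of_lt ENNReal.toReal_nonneg ht1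
  refine lt_of_lt_of_le ?_ (key t ht0 (by rwa [lt_div_iff₀ hσ0] at ht2))
  rwa [ENNReal.ofReal_lt_ofReal_iff ht0]

end Pool.Agent.X124.MD
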