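import Mathlib

set_option autoImplicit false

/-!
The Hausdorff dimension of a limsup set of intervals of varying lengths.
-/

namespace Pool.Agent.X124.MD

open MeasureTheory Filter Topology Metric
open scoped ENNReal NNReal

theorem dimH_ls {ι : Type} (I : ℕ → Finset ι) (c r : ℕ → ι → ℝ) (R : ℕ → ℝ) (s : ℝ≥0) (θ C : ℝ)
    (hr : ∀ k, ∀ i ∈ I k, 0 ≤ r k i ∧ r k i ≤ R k) (hR : Antitone R)
    (hR0 : Tendsto R atTop (𝓝 0)) (hθ : 0 ≤ θ) (hθ1 : θ < 1) (hC : 0 ≤ C)
    (hs : ∀ k, ∑ i ∈ I k, (2 * r k i) ^ (s : ℝ) ≤ C * θ ^ k) :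
    dimH {x : ℝ | ∀ n : ℕ, ∃ k, n ≤ k ∧ ∃ i ∈ I k, |x - c k i| ≤ r k i} ≤ s := by
  apply dimH_le_of_hausdorffMeasure_ne_top
  have hmain : μH[(s : ℝ)] {x : ℝ | ∀ n : ℕ, ∃ k, n ≤ k ∧ ∃ i ∈ I k, |x - c k i| ≤ r k i} ≤ 0 := by
    have h1 := Measure.hausdorffMeasure_le_liminf_tsum (X := ℝ) (β := ℕ)
      (ι := fun n => Σ m : ℕ, I (n + m)) (s : ℝ)
      {x : ℝ | ∀ n : ℕ, ∃ k, n ≤ k ∧ ∃ i ∈ I k, |x - c k i| ≤ r k i} (l := atTop)
      (fun n => ENNReal.ofReal (2 * R n)) (by
        have h2 : Tendsto (fun n => 2 * R n) atTop (𝓝 0) := by simpa using hR0.const_mul 2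
        rw [← ENNReal.ofReal_zero]
        exact (ENNReal.continuous_ofReal.tendsto 0).comp h2)
      (fun n i => Metric.closedBall (c (n + i.1) i.2) (r (n + i.1) i.2))
      (Eventually.of_forall fun n i => by
        apply Metric.ediam_le
        intro x hx y hy
        rw [edist_dist]
        apply ENNReal.ofReal_le_ofReal
        rw [Metric.mem_closedBall] at hx hy
        have h3 := dist_triangle_right x y (c (n + i.1) i.2)
        have h4 := hR (Nat.le_add_right n i.1)
        have h5 := (hr (n + i.1) i.2 i.2.2).2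
        linarith)
      (Eventually.of_forall fun n => by
        intro x hx
        obtain ⟨k, hk, i, hi, hxi⟩ := hx n
        obtain ⟨m, rfl⟩ := Nat.exists_eq_add_of_le hk
        refine Set.mem_iUnion.mpr ⟨⟨m, ⟨i, hi⟩⟩, ?_⟩
        rw [mem_closedBall, Real.dist_eq]
        exact hxi)
    refine h1.trans ?_
    have h2 : ∀ n : ℕ, ∑' i : (Σ m : ℕ, I (n + m)),
        Metric.ediam (Metric.closedBall (c (n + i.1) i.2) (r (n + i.1) i.2)) ^ (s : ℝ) ≤
        ENNReal.ofReal (C * θ ^ n * (1 - θ)⁻¹) := by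
      intro n
      rw [ENNReal.tsum_sigma']
      have h3 : ∀ m : ℕ, ∑' y : I (n + m),
          Metric.ediam (Metric.closedBall (c (n + m) y) (r (n + m) y)) ^ (s : ℝ) ≤
          ENNReal.ofReal (C * θ ^ n * θ ^ m) := by
        intro m
        rw [tsum_fintype]
        have h4 : ∀ y : I (n + m), Metric.ediam (Metric.closedBall (c (n + m) y)
            (r (n + m) y)) ^ (s : ℝ) ≤ ENNReal.ofReal ((2 * r (n + m) y) ^ (s : ℝ)) := by
          intro y
          have h0 := (hr (n + m) y y.2).1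
          rw [← ENNReal.ofReal_rpow_of_nonneg (by positivity) s.coe_nonneg]
          apply ENNReal.rpow_le_rpow _ s.2
          apply Metric.ediam_le
          intro x hx z hz
          rw [edist_dist]
          apply ENNReal.ofReal_le_ofReal
          rw [Metric.mem_closedBall] at hx hz
          have h3 := dist_triangle_right x z (c (n + m) y)
          linarith
        refine (Finset.sum_le_sum fun y _ => h4 y).trans ?_
        rw [← ENNReal.ofReal_sum_of_nonneg (fun y _ => by
          have h0 := (hr (n + m) y y.2).1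
          positivity)]
        apply ENNReal.ofReal_le_ofReal
        have h5 := hs (n + m)
        rw [pow_add, ← mul_assoc] at h5
        refine le_trans (le_of_eq ?_) h5
        exact Finset.sum_coe_sort (I (n + m)) (fun i => (2 * r (n + m) i) ^ (s : ℝ))
      refine (ENNReal.tsum_le_tsum h3).trans ?_
      rw [← ENNReal.ofReal_tsum_of_nonneg (fun m => by positivity)
        ((summable_geometric_of_lt_one hθ hθ1).mul_left _), tsum_mul_left,
        tsum_geometric_of_lt_one hθ hθ1]
    have h3 : Tendsto (fun n : ℕ => ENNReal.ofReal (C * θ ^ n * (1 - θ)⁻¹)) atTop (𝓝 0) := by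
      have h4 : Tendsto (fun n : ℕ => C * θ ^ n * (1 - θ)⁻¹) atTop (𝓝 0) := by
        have := ((tendsto_pow_atTop_nhds_zero_of_lt_one hθ hθ1).const_mul C).mul_const (1 - θ)⁻¹
        simpa using this
      rw [← ENNReal.ofReal_zero]
      exact (ENNReal.continuous_ofReal.tendsto 0).comp h4
    calc _ ≤ liminf (fun n : ℕ => ENNReal.ofReal (C * θ ^ n * (1 - θ)⁻¹)) atTop :=
          liminf_le_liminf (Eventually.of_forall h2)
      _ = 0 := h3.liminf_eq
  exact ne_top_of_le_ne_top ENNReal.zero_ne_top hmain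

end Pool.Agent.X124.MD
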