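import Mathlib
import Pool.Agent.X124.MV.Det
import Pool.Agent.X124.MD.LsUp

set_option autoImplicit false

/-!
The sums of the powers of the lengths.
-/

namespace Pool.Agent.X124.MD

open Finset Pool.Agent.H813R3.Voj Filter MeasureTheory Topology Pool.Agent.X124.MV

/-- the threshold for the value -/
noncomputable def Tk (κ μ : ℝ) (k : ℕ) (u : ℤ × ℤ × ℤ) : ℝ :=
  ((2 : ℝ) ^ k) ^ (1 - κ) * (op (ds u).natAbs : ℝ) ^ (-μ)

lemma op_le' (n : ℕ) (hn : n ≠ 0) : op n ≤ n := by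
  unfold op
  exact Nat.le_of_dvd (Nat.pos_of_ne_zero hn) ((Finset.prod_dvd_prod_of_subset _ _ _
    (Finset.filter_subset _ _)).trans (Nat.prod_primeFactors_dvd n))

lemma term_le (κ μ s : ℝ) (hs0 : 0 < s) (hs1 : s ≤ 1) (k : ℕ) (u : ℤ × ℤ × ℤ)
    (hu : u ∈ box (2 ^ k)) (hns : ¬ IsSquare (ds u)) :
    (2 * (2 * Tk κ μ k u / rd u)) ^ s ≤ 4 ^ s * ((2 : ℝ) ^ k) ^ ((1 - κ) * s) *
      (8 * ((2 : ℝ) ^ k) ^ 2) ^ (max 0 (1 / 2 - μ * s) + (1 - s) / 2) * (wt u / rd u) := by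
  have hd0 := (ne_of_not_sq hns).2
  have hdN : (ds u).natAbs ≠ 0 := Int.natAbs_ne_zero.2 hd0
  set t : ℝ := (op (ds u).natAbs : ℝ) with ht
  set Δ : ℝ := ((ds u).natAbs : ℝ) with hΔ
  set N : ℝ := (2 : ℝ) ^ k with hN
  set M : ℝ := 8 * N ^ 2 with hM
  have hN0 : 0 < N := by rw [hN]; positivity
  have ht1 : 1 ≤ t := by rw [ht]; exact_mod_cast op_pos _
  have htΔ : t ≤ Δ := by rw [ht, hΔ]; exact_mod_cast op_le' _ hdN
  have hΔM : Δ ≤ M := by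
    have h1 := ds_le hu
    have h2 : Δ ≤ 5 * N ^ 2 := by
      rw [hΔ, hN]
      have : ((ds u).natAbs : ℝ) ≤ ((5 * (2 ^ k) ^ 2 : ℕ) : ℝ) := by exact_mod_cast h1
      refine this.trans (le_of_eq ?_)
      push_cast
      ring
    rw [hM]
    nlinarith [sq_nonneg N]
  have ht0 : 0 < t := by linarith
  have hΔ0 : 0 < Δ := by linarith
  have hM0 : 0 < M := by linarith
  have hM1 : 1 ≤ M := by linarith
  have hrd : rd u = Δ ^ (1 / 2 : ℝ) := by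
    unfold Pool.Agent.X124.MV.rd
    rw [Real.sqrt_eq_rpow]
  have hwt : wt u = t ^ (-(1 / 2 : ℝ)) := rfl
  have e1 : 2 * (2 * Tk κ μ k u / rd u) = 4 * N ^ (1 - κ) * t ^ (-μ) * Δ ^ (-(1 / 2 : ℝ)) := by
    unfold Tk
    rw [hrd, Real.rpow_neg hΔ0.le]
    ring
  have e2 : (4 * N ^ (1 - κ) * t ^ (-μ) * Δ ^ (-(1 / 2 : ℝ))) ^ s =
      4 ^ s * N ^ ((1 - κ) * s) * t ^ (-μ * s) * Δ ^ (-(1 / 2 : ℝ) * s) := by
    rw [Real.mul_rpow (by positivity) (by positivity), Real.mul_rpow (by positivity)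
      (by positivity), Real.mul_rpow (by positivity) (by positivity), ← Real.rpow_mul hN0.le,
      ← Real.rpow_mul ht0.le, ← Real.rpow_mul hΔ0.le]
  have e3 : t ^ (-μ * s) ≤ t ^ (-(1 / 2 : ℝ)) * M ^ (max 0 (1 / 2 - μ * s)) := by
    have h1 : t ^ (-μ * s) = t ^ (-(1 / 2 : ℝ)) * t ^ (1 / 2 - μ * s) := by
      rw [← Real.rpow_add ht0]
      congr 1
      ring
    rw [h1]
    apply mul_le_mul_of_nonneg_left _ (by positivity)
    calc t ^ (1 / 2 - μ * s) ≤ t ^ (max 0 (1 / 2 - μ * s)) :=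
          Real.rpow_le_rpow_of_exponent_le ht1 (le_max_right _ _)
      _ ≤ _ := Real.rpow_le_rpow ht0.le (htΔ.trans hΔM) (le_max_left _ _)
  have e4 : Δ ^ (-(1 / 2 : ℝ) * s) ≤ Δ ^ (-(1 / 2 : ℝ)) * M ^ ((1 - s) / 2) := by
    have h1 : Δ ^ (-(1 / 2 : ℝ) * s) = Δ ^ (-(1 / 2 : ℝ)) * Δ ^ ((1 - s) / 2) := by
      rw [← Real.rpow_add hΔ0]
      congr 1
      ring
    rw [h1]
    apply mul_le_mul_of_nonneg_left _ (by positivity)
    exact Real.rpow_le_rpow hΔ0.le hΔM (by linarith)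
  rw [e1, e2]
  calc 4 ^ s * N ^ ((1 - κ) * s) * t ^ (-μ * s) * Δ ^ (-(1 / 2 : ℝ) * s) ≤
        4 ^ s * N ^ ((1 - κ) * s) * (t ^ (-(1 / 2 : ℝ)) * M ^ (max 0 (1 / 2 - μ * s))) *
          (Δ ^ (-(1 / 2 : ℝ)) * M ^ ((1 - s) / 2)) := by
        apply mul_le_mul _ e4 (by positivity) (by positivity)
        exact mul_le_mul_of_nonneg_left e3 (by positivity)
    _ = 4 ^ s * N ^ ((1 - κ) * s) * (M ^ (max 0 (1 / 2 - μ * s)) * M ^ ((1 - s) / 2)) *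
          (t ^ (-(1 / 2 : ℝ)) * Δ ^ (-(1 / 2 : ℝ))) := by ring
    _ = _ := by
        rw [← Real.rpow_add hM0, hwt, hrd, Real.rpow_neg hΔ0.le]
        ring

lemma pow_two_rpow (k : ℕ) (x : ℝ) : ((2 : ℝ) ^ k) ^ x = ((2 : ℝ) ^ x) ^ k := by
  rw [← Real.rpow_natCast, ← Real.rpow_mul (by norm_num), ← Real.rpow_natCast,
    ← Real.rpow_mul (by norm_num), mul_comm]

lemma absorb (δ : ℝ) (hδ : 0 < δ) : ∃ C : ℝ, 0 < C ∧ ∀ k : ℕ,
    ((k : ℝ) + 1) ^ 2 * ((2 : ℝ) ^ k) ^ (-δ) ≤ C := by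
  set r : ℝ := (2 : ℝ) ^ (-δ) with hr
  have hr0 : 0 < r := by positivity
  have hr1 : r < 1 := Real.rpow_lt_one_of_one_lt_of_neg (by norm_num) (by linarith)
  have h1 := (summ r hr0 hr1 1 2).tendsto_atTop_zero
  obtain ⟨C, hC⟩ := h1.bddAbove_range
  refine ⟨max C 1, lt_max_of_lt_right one_pos, fun k => ?_⟩
  have h2 : 1 * ((k : ℝ) + 1) ^ 2 * r ^ k ≤ C := hC ⟨k, rfl⟩
  rw [pow_two_rpow]
  rw [one_mul] at h2
  exact h2.trans (le_max_left _ _)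

/-- **The sum of the powers of the lengths for quadratic polynomials.** -/
theorem quad_len (κ μ s : ℝ) (hs0 : 0 < s) (hs1 : s ≤ 1) (h2 : 2 < κ * s)
    (h3 : 3 < (κ + 2 * μ) * s) : ∃ C θ : ℝ, 0 ≤ C ∧ 0 ≤ θ ∧ θ < 1 ∧ ∀ k : ℕ,
    ∑ u ∈ (box (2 ^ k)).filter (fun u => ¬ IsSquare (ds u)),
      (2 * (2 * Tk κ μ k u / rd u)) ^ s ≤ C * θ ^ k := by
  set m : ℝ := max 0 (1 / 2 - μ * s) with hm
  set δ : ℝ := κ * s - 2 - 2 * m with hδ
  have hδ0 : 0 < δ := by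
    rw [hδ, hm]
    rcases le_total 0 (1 / 2 - μ * s) with h | h
    · rw [max_eq_right h]; nlinarith
    · rw [max_eq_left h]; linarith
  obtain ⟨C1, hC1, hsum⟩ := sum_one (δ / 4) (by positivity)
  obtain ⟨C2, hC2, habs⟩ := absorb (δ / 4) (by positivity)
  set E : ℝ := m + (1 - s) / 2 with hE
  refine ⟨4 ^ s * 8 ^ E * C1 * C2, (2 : ℝ) ^ (-(δ / 2)), by positivity, by positivity,
    Real.rpow_lt_one_of_one_lt_of_neg (by norm_num) (by linarith), fun k => ?_⟩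
  set N : ℝ := (2 : ℝ) ^ k with hN
  have hN0 : 0 < N := by rw [hN]; positivity
  have h1 : ∑ u ∈ (box (2 ^ k)).filter (fun u => ¬ IsSquare (ds u)),
      (2 * (2 * Tk κ μ k u / rd u)) ^ s ≤ ∑ u ∈ (box (2 ^ k)).filter (fun u => ¬ IsSquare (ds u)),
      4 ^ s * N ^ ((1 - κ) * s) * (8 * N ^ 2) ^ E * (wt u / rd u) :=
    Finset.sum_le_sum fun u hu => term_le κ μ s hs0 hs1 k u (Finset.mem_filter.1 hu).1
      (Finset.mem_filter.1 hu).2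
  rw [← Finset.mul_sum] at h1
  refine h1.trans ?_
  have e1 : (8 * N ^ 2) ^ E = 8 ^ E * N ^ (2 * E) := by
    rw [Real.mul_rpow (by norm_num) (by positivity), ← Real.rpow_natCast N 2, ← Real.rpow_mul hN0.le]
    norm_num
  calc 4 ^ s * N ^ ((1 - κ) * s) * (8 * N ^ 2) ^ E *
        ∑ u ∈ (box (2 ^ k)).filter (fun u => ¬ IsSquare (ds u)), wt u / rd u ≤
        4 ^ s * N ^ ((1 - κ) * s) * (8 * N ^ 2) ^ E *
          (C1 * N ^ (1 + δ / 4) * ((k : ℝ) + 1) ^ 2) :=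
        mul_le_mul_of_nonneg_left (hsum k) (by positivity)
    _ = 4 ^ s * 8 ^ E * C1 * ((((k : ℝ) + 1) ^ 2 * N ^ (-(δ / 4))) *
          (N ^ ((1 - κ) * s) * N ^ (2 * E) * N ^ (1 + δ / 4) * N ^ (δ / 4))) := by
        rw [e1]
        have : N ^ (-(δ / 4)) * N ^ (δ / 4) = 1 := by
          rw [← Real.rpow_add hN0]; simp
        calc _ = 4 ^ s * 8 ^ E * C1 * (((k : ℝ) + 1) ^ 2 *
              (N ^ ((1 - κ) * s) * N ^ (2 * E) * N ^ (1 + δ / 4))) := by ring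
          _ = 4 ^ s * 8 ^ E * C1 * (((k : ℝ) + 1) ^ 2 *
              (N ^ ((1 - κ) * s) * N ^ (2 * E) * N ^ (1 + δ / 4))) *
              (N ^ (-(δ / 4)) * N ^ (δ / 4)) := by rw [this, mul_one]
          _ = _ := by ring
    _ = 4 ^ s * 8 ^ E * C1 * ((((k : ℝ) + 1) ^ 2 * N ^ (-(δ / 4))) * N ^ (-(δ / 2))) := by
        rw [← Real.rpow_add hN0, ← Real.rpow_add hN0, ← Real.rpow_add hN0]
        congr 3
        rw [hE, hδ]
        ring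
    _ ≤ 4 ^ s * 8 ^ E * C1 * (C2 * N ^ (-(δ / 2))) := by
        apply mul_le_mul_of_nonneg_left _ (by positivity)
        exact mul_le_mul_of_nonneg_right (habs k) (by positivity)
    _ = _ := by rw [hN, pow_two_rpow]; ring

end Pool.Agent.X124.MD
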