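import Mathlib
import Pool.Agent.X124.MV.Dsc
import Pool.Agent.X124.MD.QSum

set_option autoImplicit false

/-!
The upper bound for the dimension.
-/

namespace Pool.Agent.X124.MD

open Finset Pool.Agent.H813R3.Voj Filter MeasureTheory Topology Pool.Agent.X124.MV
  Polynomial Pool.Agent.H990R4.VJ Pool.Agent.W226.VQ
open scoped ENNReal NNReal

/-- the proximity of the roots of `f` to `α` -/
noncomputable def prox (α : ℝ) (f : ℤ[X]) : ℝ :=
  ((f.map (Int.castRingHom ℂ)).roots.map fun z =>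
    Real.log (max 1 ‖z‖ * max 1 |α| / ‖z - (α : ℂ)‖)).sum / f.natDegree

/-- the exceptional set -/
def Exc (κ μ : ℝ) : Set ℝ :=
  {α | ∀ C : ℝ, ∃ (x : ℂ) (f : ℤ[X]), Irreducible f ∧ (f.natDegree = 1 ∨ f.natDegree = 2) ∧
    aeval x f = 0 ∧ κ * (Real.log (mm f) / f.natDegree) + μ * lD x + C < prox α f}

open Classical in
/-- the centres -/
noncomputable def cen (p : (ℤ × ℤ × ℤ) × Bool) : ℝ :=
  if h : p.1.1 ≠ 0 ∧ ds p.1 ≠ 0 then
    (if p.2 then (near p.1 h.1 h.2).choose else (near p.1 h.1 h.2).choose_spec.choose) else 0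

lemma cen_spec (u : ℤ × ℤ × ℤ) (hu : ¬ IsSquare (ds u)) (x t : ℝ) (h : |ev u x| ≤ t) :
    ∃ b : Bool, |x - cen (u, b)| ≤ 2 * t / Pool.Agent.X124.MV.rd u := by
  have h0 := ne_of_not_sq hu
  have h1 := (near u h0.1 h0.2).choose_spec.choose_spec x t h
  rcases h1 with h1 | h1
  · refine ⟨true, ?_⟩
    unfold cen
    rw [dif_pos ⟨h0.1, h0.2⟩, if_pos rfl]
    exact h1
  · refine ⟨false, ?_⟩
    unfold cen
    rw [dif_pos ⟨h0.1, h0.2⟩, if_neg (by simp)]
    exact h1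

open Classical in
/-- the indices at the scale `2 ^ k` -/
noncomputable def IQ (k : ℕ) : Finset ((ℤ × ℤ × ℤ) × Bool) :=
  ((box (2 ^ k)).filter fun u => ¬ IsSquare (ds u)) ×ˢ (Finset.univ : Finset Bool)

/-- the limsup set for the quadratic polynomials -/
def LQ (κ μ : ℝ) : Set ℝ :=
  {x : ℝ | ∀ n : ℕ, ∃ k, n ≤ k ∧ ∃ p ∈ IQ k,
    |x - cen p| ≤ 2 * Tk κ μ k p.1 / Pool.Agent.X124.MV.rd p.1}

noncomputable def IL (k : ℕ) : Finset (ℤ × ℤ) :=
  Finset.Icc (-((2 ^ k : ℕ) : ℤ)) ((2 ^ k : ℕ) : ℤ) ×ˢ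
    Finset.Icc (-((2 ^ k : ℕ) : ℤ)) ((2 ^ k : ℕ) : ℤ)

/-- the limsup set for the linear polynomials -/
def LL (κ : ℝ) : Set ℝ :=
  {x : ℝ | ∀ n : ℕ, ∃ k, n ≤ k ∧ ∃ v ∈ IL k, |x - (-(v.2 : ℝ) / v.1)| ≤ ((2 : ℝ) ^ k) ^ (-κ)}

lemma tendsto_pow_neg (c κ : ℝ) (hc : 0 ≤ c) (hκ : 0 < κ) :
    Antitone (fun k : ℕ => c * ((2 : ℝ) ^ k) ^ (-κ)) ∧
      Tendsto (fun k : ℕ => c * ((2 : ℝ) ^ k) ^ (-κ)) atTop (𝓝 0) := by
  have h1 : (2 : ℝ) ^ (-κ) < 1 := Real.rpow_lt_one_of_one_lt_of_neg (by norm_num) (by linarith)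
  have h0 : (0 : ℝ) < (2 : ℝ) ^ (-κ) := by positivity
  constructor
  · intro a b hab
    simp only
    rw [pow_two_rpow, pow_two_rpow]
    exact mul_le_mul_of_nonneg_left (pow_le_pow_of_le_one h0.le h1.le hab) hc
  · simp only [pow_two_rpow]
    have := (tendsto_pow_atTop_nhds_zero_of_lt_one h0.le h1).const_mul c
    simpa using this

theorem dim_LQ (κ μ : ℝ) (s : ℝ≥0) (hμ : 0 ≤ μ) (hs0 : 0 < s) (hs1 : s ≤ 1) (h2 : 2 < κ * s)
    (h3 : 3 < (κ + 2 * μ) * s) : dimH (LQ κ μ) ≤ s := by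
  have hs0' : (0 : ℝ) < s := by exact_mod_cast hs0
  have hs1' : (s : ℝ) ≤ 1 := by exact_mod_cast hs1
  have hκ : 2 < κ := by
    by_contra hcon
    push Not at hcon
    nlinarith
  obtain ⟨C, θ, hC, hθ, hθ1, hsum⟩ := quad_len κ μ s hs0' hs1' h2 h3
  obtain ⟨r1, r2⟩ := tendsto_pow_neg 2 (κ - 1) (by norm_num) (by linarith)
  refine dimH_ls IQ (fun _ p => cen p) (fun k p => 2 * Tk κ μ k p.1 / Pool.Agent.X124.MV.rd p.1)
    (fun k => 2 * ((2 : ℝ) ^ k) ^ (-(κ - 1))) s θ (2 * C) ?_ r1 r2 hθ hθ1 (by positivity) ?_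
  · intro k p hp
    unfold IQ at hp
    rw [Finset.mem_product, Finset.mem_filter] at hp
    have hns := hp.1.2
    have hd0 := (ne_of_not_sq hns).2
    have hrd := rd_pos hd0
    have hT : 0 ≤ Tk κ μ k p.1 := by unfold Tk; positivity
    refine ⟨by positivity, ?_⟩
    have hrd1 : 1 ≤ Pool.Agent.X124.MV.rd p.1 := by
      unfold Pool.Agent.X124.MV.rd
      rw [Real.one_le_sqrt]
      exact_mod_cast Int.natAbs_pos.2 hd0
    have hT1 : Tk κ μ k p.1 ≤ ((2 : ℝ) ^ k) ^ (-(κ - 1)) := by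
      unfold Tk
      rw [neg_sub]
      have : (op (ds p.1).natAbs : ℝ) ^ (-μ) ≤ 1 :=
        Real.rpow_le_one_of_one_le_of_nonpos (by exact_mod_cast op_pos _) (by linarith)
      exact mul_le_of_le_one_right (by positivity) this
    calc 2 * Tk κ μ k p.1 / Pool.Agent.X124.MV.rd p.1 ≤ 2 * Tk κ μ k p.1 :=
          div_le_self (by positivity) hrd1
      _ ≤ _ := by linarith
  · intro k
    unfold IQ
    rw [Finset.sum_product]
    simp only [Finset.sum_const, Finset.card_univ, Fintype.card_bool, nsmul_eq_mul]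
    rw [← Finset.mul_sum]
    push_cast
    calc _ ≤ 2 * (C * θ ^ k) := mul_le_mul_of_nonneg_left (hsum k) (by norm_num)
      _ = _ := by ring

theorem dim_LL (κ : ℝ) (s : ℝ≥0) (hs0 : 0 < s) (hs1 : s ≤ 1) (h2 : 2 < κ * s) :
    dimH (LL κ) ≤ s := by
  have hs0' : (0 : ℝ) < s := by exact_mod_cast hs0
  have hs1' : (s : ℝ) ≤ 1 := by exact_mod_cast hs1
  have hκ : 2 < κ := by
    by_contra hcon
    push Not at hcon
    nlinarith
  obtain ⟨r1, r2⟩ := tendsto_pow_neg 1 κ (by norm_num) (by linarith)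
  simp only [one_mul] at r1 r2
  refine dimH_ls IL (fun _ v => -(v.2 : ℝ) / v.1) (fun k _ => ((2 : ℝ) ^ k) ^ (-κ))
    (fun k => ((2 : ℝ) ^ k) ^ (-κ)) s ((2 : ℝ) ^ (2 - κ * s)) (9 * 2 ^ (s : ℝ)) ?_ r1 r2
    (by positivity) (Real.rpow_lt_one_of_one_lt_of_neg (by norm_num) (by linarith))
    (by positivity) ?_
  · intro k p _
    exact ⟨by positivity, le_refl _⟩
  · intro k
    rw [Finset.sum_const, nsmul_eq_mul]
    have hN1 : (1 : ℝ) ≤ (2 : ℝ) ^ k := one_le_pow₀ (by norm_num)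
    set N : ℝ := (2 : ℝ) ^ k with hN
    have hN0 : 0 < N := by linarith
    have hcard : ((IL k).card : ℝ) ≤ 9 * N ^ 2 := by
      unfold IL
      rw [Finset.card_product, Int.card_Icc]
      have e : (((2 ^ k : ℕ) : ℤ) + 1 - -((2 ^ k : ℕ) : ℤ)).toNat = 2 * 2 ^ k + 1 := by omega
      rw [e]
      push_cast
      rw [← hN]
      nlinarith
    rw [Real.mul_rpow (by norm_num) (by positivity), ← Real.rpow_mul hN0.le]
    calc ((IL k).card : ℝ) * (2 ^ (s : ℝ) * N ^ (-κ * s)) ≤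
          9 * N ^ 2 * (2 ^ (s : ℝ) * N ^ (-κ * s)) :=
          mul_le_mul_of_nonneg_right hcard (by positivity)
      _ = 9 * 2 ^ (s : ℝ) * (N ^ (2 : ℝ) * N ^ (-κ * s)) := by
          rw [Real.rpow_two]; ring
      _ = _ := by
          rw [← Real.rpow_add hN0, hN, pow_two_rpow]
          congr 3
          ring

/-- the dyadic scale of a positive integer -/
lemma scale (n m : ℕ) (hm : 1 ≤ m) : ∃ k, n ≤ k ∧ m ≤ 2 ^ k ∧ 2 ^ k ≤ 2 ^ (n + 1) * m := by
  refine ⟨max (Nat.clog 2 m) n, le_max_right _ _, (Nat.le_pow_clog (by norm_num) _).trans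
    (Nat.pow_le_pow_right (by norm_num) (le_max_left _ _)), ?_⟩
  have h3 : 2 ^ Nat.clog 2 m ≤ 2 * m := by
    rcases Nat.lt_or_ge 1 m with h | h
    · have := Nat.pow_pred_clog_lt_self (by norm_num : 1 < 2) h
      have h4 : Nat.clog 2 m = (Nat.clog 2 m).pred + 1 :=
        (Nat.succ_pred_eq_of_pos (Nat.clog_pos (by norm_num) h)).symm
      rw [h4, pow_succ]
      omega
    · have : m = 1 := le_antisymm h hm
      rw [this]; simp
  rcases le_total (Nat.clog 2 m) n with h | h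
  · rw [max_eq_right h, pow_succ]
    nlinarith [Nat.one_le_two_pow (n := n)]
  · rw [max_eq_left h, pow_succ]
    calc 2 ^ Nat.clog 2 m ≤ 2 * m := h3
      _ ≤ 2 ^ n * 2 * m := by nlinarith [Nat.one_le_two_pow (n := n)]

/-- from the scale to logarithms -/
lemma scale_log {κ : ℝ} (hκ : 1 ≤ κ) {n m k : ℕ} (hm : 1 ≤ m) (h : 2 ^ k ≤ 2 ^ (n + 1) * m) :
    (1 - κ) * (Real.log m + ((n : ℝ) + 1) * Real.log 2) ≤
      Real.log (((2 : ℝ) ^ k) ^ (1 - κ)) := by
  have hm0 : (0 : ℝ) < m := by exact_mod_cast hm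
  have h' : (2 : ℝ) ^ k ≤ 2 ^ (n + 1) * m := by exact_mod_cast h
  have h1 := Real.log_le_log (by positivity) h'
  rw [Real.log_mul (by positivity) hm0.ne', Real.log_pow 2 (n + 1)] at h1
  push_cast at h1
  rw [Real.log_rpow (by positivity)]
  nlinarith

/-- **A number outside the limsup sets is not exceptional.** -/
theorem exc_sub (κ μ : ℝ) (hκ : 1 ≤ κ) (hμ : 0 ≤ μ) :
    Exc κ μ ⊆ {x : ℝ | IsAlgebraic ℤ x} ∪ (LQ κ μ ∪ LL κ) := by
  intro α hα
  by_contra hcon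
  simp only [Set.mem_union, Set.mem_ofPred_eq, not_or] at hcon
  obtain ⟨hA, hQ, hL⟩ := hcon
  unfold LQ at hQ
  unfold LL at hL
  simp only [Set.mem_ofPred_eq] at hQ hL
  push Not at hQ hL
  obtain ⟨n1, hn1⟩ := hQ
  obtain ⟨n2, hn2⟩ := hL
  have hev : ∀ f : ℤ[X], f ≠ 0 → aeval α f ≠ 0 := fun f hf h0 => hA ⟨f, hf, h0⟩
  set B : ℝ := Real.log (max 1 |α|) with hB
  have hB0 : 0 ≤ B := Real.log_nonneg (le_max_left _ _)
  have hl2 : 0 ≤ Real.log 2 := Real.log_nonneg (by norm_num)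
  have hl4 : 0 ≤ Real.log 4 := Real.log_nonneg (by norm_num)
  -- quadratic polynomials
  have hquad : ∀ (x : ℂ) (f : ℤ[X]), Irreducible f → f.natDegree = 2 → aeval x f = 0 →
      prox α f ≤ κ * (Real.log (mm f) / 2) + μ * lD x +
        (2 * B + (κ - 1) * (Real.log 4 + ((n1 : ℝ) + 1) * Real.log 2)) := by
    intro x f hf hd hx
    have hns := not_sq hf hd
    have hn0 := one_le_hn hns
    obtain ⟨k, hk1, hk2, hk3⟩ := scale n1 (hn (cu f)) hn0
    have hval : Tk κ μ k (cu f) < |ev (cu f) α| := by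
      by_contra h1
      push Not at h1
      obtain ⟨b, hb⟩ := cen_spec (cu f) hns α _ h1
      refine absurd hb (not_le.2 (hn1 k hk1 (cu f, b) ?_))
      unfold IQ
      rw [Finset.mem_product, Finset.mem_filter]
      exact ⟨⟨mem_box_of_hn hk2, hns⟩, Finset.mem_univ _⟩
    have hm : 0 < mm f := lt_of_lt_of_le one_pos (one_le_mm hf.ne_zero)
    have hm1 : 0 ≤ Real.log (mm f) := Real.log_nonneg (one_le_mm hf.ne_zero)
    have hn0' : (0 : ℝ) < hn (cu f) := by exact_mod_cast hn0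
    have hop : (0 : ℝ) < (op (ds (cu f)).natAbs : ℝ) := by exact_mod_cast op_pos _
    have hT0 : 0 < Tk κ μ k (cu f) := by unfold Tk; positivity
    have h1 := Real.log_le_log hT0 hval.le
    have h2 : Real.log (Tk κ μ k (cu f)) = Real.log (((2 : ℝ) ^ k) ^ (1 - κ)) -
        μ * Real.log (op (ds (cu f)).natAbs) := by
      unfold Tk
      rw [Real.log_mul (by positivity) (by positivity), Real.log_rpow hop]
      ring
    have h3 := scale_log hκ hn0 hk3
    have h4 := log_comp hn0' hm (by norm_num) (hn_le_mm f hd)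
    have h5 : Real.log (op (dsc (cv f)).natAbs) ≤ 2 * lD x := log_op_le f hf hd x hx
    rw [h2, ds_cu, ev_cu f hd.le] at h1
    unfold prox
    rw [prox_one f hf.ne_zero α (hev f hf.ne_zero), hd, ← hB]
    push_cast
    have h6 : μ * Real.log (op (dsc (cv f)).natAbs) ≤ μ * (2 * lD x) :=
      mul_le_mul_of_nonneg_left h5 hμ
    have h7 : (κ - 1) * Real.log (hn (cu f)) ≤ (κ - 1) * (Real.log 4 + Real.log (mm f)) :=
      mul_le_mul_of_nonneg_left h4 (by linarith)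
    have h8 : 0 ≤ (κ - 1) * (Real.log 4 + ((n1 : ℝ) + 1) * Real.log 2) :=
      mul_nonneg (by linarith) (by positivity)
    rw [div_le_iff₀ (by norm_num)]
    nlinarith
  -- linear polynomials
  have hlin : ∀ (x : ℂ) (f : ℤ[X]), Irreducible f → f.natDegree = 1 →
      prox α f ≤ κ * Real.log (mm f) +
        (B + (κ - 1) * (Real.log 4 + ((n2 : ℝ) + 1) * Real.log 2) +
          Real.log (2 ^ (n2 + 1) * (2 + |α|))) := by
    intro x f hf hd
    set v : ℤ × ℤ := (f.coeff 1, f.coeff 0) with hv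
    have hlc : f.coeff 1 ≠ 0 := by
      rw [← hd, coeff_natDegree, leadingCoeff_ne_zero]; exact hf.ne_zero
    have hln : 1 ≤ ln v := le_max_of_le_left (Int.natAbs_pos.2 hlc)
    obtain ⟨k, hk1, hk2, hk3⟩ := scale n2 (ln v) hln
    have hln0 : (0 : ℝ) < ln v := by exact_mod_cast hln
    have hm1 := one_le_mm hf.ne_zero
    have hm : 0 < mm f := by linarith
    have hlm1 : 0 ≤ Real.log (mm f) := Real.log_nonneg hm1
    have hab : ∀ a : ℤ, (a.natAbs : ℝ) = |(a : ℝ)| := by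
      intro a
      rw [Nat.cast_natAbs]; push_cast; rfl
    have hev' : aeval α f = (f.coeff 1 : ℝ) * α + f.coeff 0 := by
      rw [aeval_eq_sum_range' (n := 2) (by omega)]
      simp only [Finset.sum_range_succ, Finset.range_zero, Finset.sum_empty, zsmul_eq_mul]
      ring
    have hmem : v ∈ IL k := by
      unfold IL
      rw [Finset.mem_product, Finset.mem_Icc, Finset.mem_Icc, ← abs_le, ← abs_le]
      unfold ln at hk2
      rw [max_le_iff] at hk2
      rw [Int.abs_eq_natAbs, Int.abs_eq_natAbs]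
      exact ⟨by exact_mod_cast hk2.1, by exact_mod_cast hk2.2⟩
    have h1 := hn2 k hk1 v hmem
    have hc1 : (0 : ℝ) < |(f.coeff 1 : ℝ)| := abs_pos.2 (by exact_mod_cast hlc)
    have h2 : |(f.coeff 1 : ℝ)| * ((2 : ℝ) ^ k) ^ (-κ) ≤ |aeval α f| := by
      have e : aeval α f = (f.coeff 1 : ℝ) * (α - (-(v.2 : ℝ) / v.1)) := by
        rw [hev', hv]
        have : (f.coeff 1 : ℝ) ≠ 0 := by exact_mod_cast hlc
        field_simp
        ring
      rw [e, abs_mul]
      exact mul_le_mul_of_nonneg_left h1.le hc1.le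
    -- the lower bound for the value
    have h2k : (1 : ℝ) ≤ (2 : ℝ) ^ k := one_le_pow₀ (by norm_num)
    have hα0 := abs_nonneg α
    have hval : ((2 : ℝ) ^ k) ^ (1 - κ) / (2 ^ (n2 + 1) * (2 + |α|)) ≤ |aeval α f| := by
      rcases le_or_gt |(f.coeff 0 : ℝ)| ((1 + |α|) * |(f.coeff 1 : ℝ)|) with h3 | h3
      · have h4 : (ln v : ℝ) ≤ (2 + |α|) * |(f.coeff 1 : ℝ)| := by
          rw [hv]
          unfold ln
          push_cast
          rw [hab, hab]
          apply max_le <;> nlinarith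
        have h5 : (2 : ℝ) ^ k ≤ 2 ^ (n2 + 1) * (ln v : ℝ) := by exact_mod_cast hk3
        have h6 : (2 : ℝ) ^ k ≤ (2 ^ (n2 + 1) * (2 + |α|)) * |(f.coeff 1 : ℝ)| := by
          calc _ ≤ 2 ^ (n2 + 1) * (ln v : ℝ) := h5
            _ ≤ 2 ^ (n2 + 1) * ((2 + |α|) * |(f.coeff 1 : ℝ)|) :=
                mul_le_mul_of_nonneg_left h4 (by positivity)
            _ = _ := by ring
        refine le_trans ?_ h2
        rw [div_le_iff₀ (by positivity)]
        have e2 : ((2 : ℝ) ^ k) ^ (1 - κ) = (2 : ℝ) ^ k * ((2 : ℝ) ^ k) ^ (-κ) := by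
          rw [sub_eq_add_neg, Real.rpow_add (by positivity), Real.rpow_one]
        rw [e2]
        calc (2 : ℝ) ^ k * ((2 : ℝ) ^ k) ^ (-κ) ≤
              ((2 ^ (n2 + 1) * (2 + |α|)) * |(f.coeff 1 : ℝ)|) * ((2 : ℝ) ^ k) ^ (-κ) :=
              mul_le_mul_of_nonneg_right h6 (by positivity)
          _ = _ := by ring
      · have h4 : 1 ≤ |aeval α f| := by
          rw [hev']
          have h5 := abs_sub_abs_le_abs_sub (f.coeff 0 : ℝ) (-((f.coeff 1 : ℝ) * α))
          rw [abs_neg, abs_mul, sub_neg_eq_add, add_comm (f.coeff 0 : ℝ)] at h5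
          have h6 : (1 : ℝ) ≤ |(f.coeff 1 : ℝ)| := by exact_mod_cast Int.one_le_abs hlc
          nlinarith
        refine le_trans ?_ h4
        rw [div_le_one (by positivity)]
        have h7 : ((2 : ℝ) ^ k) ^ (1 - κ) ≤ 1 :=
          Real.rpow_le_one_of_one_le_of_nonpos h2k (by linarith)
        have h8 : (1 : ℝ) ≤ 2 ^ (n2 + 1) := one_le_pow₀ (by norm_num)
        nlinarith
    have h8 := Real.log_le_log (by positivity) hval
    rw [Real.log_div (by positivity) (by positivity)] at h8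
    have h9 := scale_log hκ hln hk3
    have h10 := log_comp hln0 hm (by norm_num) (ln_mm f hd).1
    have h10' : Real.log 2 ≤ Real.log 4 := Real.log_le_log (by norm_num) (by norm_num)
    unfold prox
    rw [prox_one f hf.ne_zero α (hev f hf.ne_zero), hd, ← hB]
    push_cast
    have h7 : (κ - 1) * Real.log (ln v) ≤ (κ - 1) * (Real.log 4 + Real.log (mm f)) :=
      mul_le_mul_of_nonneg_left (by linarith) (by linarith)
    rw [div_one]
    nlinarith
  obtain ⟨x, f, hf, hd, hx, hlt⟩ := hα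
    (|2 * B + (κ - 1) * (Real.log 4 + ((n1 : ℝ) + 1) * Real.log 2)| +
      |B + (κ - 1) * (Real.log 4 + ((n2 : ℝ) + 1) * Real.log 2) +
          Real.log (2 ^ (n2 + 1) * (2 + |α|))|)
  have a1 := le_abs_self (2 * B + (κ - 1) * (Real.log 4 + ((n1 : ℝ) + 1) * Real.log 2))
  have a2 := le_abs_self (B + (κ - 1) * (Real.log 4 + ((n2 : ℝ) + 1) * Real.log 2) +
          Real.log (2 ^ (n2 + 1) * (2 + |α|)))
  have a3 := abs_nonneg (2 * B + (κ - 1) * (Real.log 4 + ((n1 : ℝ) + 1) * Real.log 2))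
  have a4 := abs_nonneg (B + (κ - 1) * (Real.log 4 + ((n2 : ℝ) + 1) * Real.log 2) +
          Real.log (2 ^ (n2 + 1) * (2 + |α|)))
  have hlD : 0 ≤ μ * lD x := mul_nonneg hμ (lD_nonneg x)
  rcases hd with hd | hd
  · have h1 := hlin x f hf hd
    rw [hd] at hlt
    push_cast at hlt
    rw [div_one] at hlt
    linarith
  · have h1 := hquad x f hf hd hx
    rw [hd] at hlt
    push_cast at hlt
    linarith

/-- **The upper bound.** -/
theorem dim_le (κ μ : ℝ) (hκ : 2 < κ) (hμ : 0 ≤ μ) (h3 : 3 < κ + 2 * μ) :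
    dimH (Exc κ μ) ≤ ENNReal.ofReal (max (2 / κ) (3 / (κ + 2 * μ))) := by
  refine le_of_forall_gt fun c hc => ?_
  set M : ℝ := max (2 / κ) (3 / (κ + 2 * μ)) with hM
  have hM0 : 0 < M := lt_max_of_lt_left (by positivity)
  have hM1 : M < 1 := by
    rw [hM]
    apply max_lt
    · rw [div_lt_one (by linarith)]; exact hκ
    · rw [div_lt_one (by linarith)]; exact h3
  obtain ⟨s, hs1, hs2, hs3⟩ : ∃ s : ℝ, M < s ∧ s ≤ 1 ∧ ENNReal.ofReal s ≤ c := by
    rcases le_or_gt 1 c with h | h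
    · exact ⟨1, hM1, le_refl _, by rw [ENNReal.ofReal_one]; exact h⟩
    · have hct : c ≠ ⊤ := ne_top_of_lt h
      refine ⟨c.toReal, ?_, ?_, by rw [ENNReal.ofReal_toReal hct]⟩
      · rw [← ENNReal.ofReal_toReal hct] at hc
        exact (ENNReal.ofReal_lt_ofReal_iff_of_nonneg hM0.le).1 hc
      · rw [← ENNReal.toReal_one]
        exact ENNReal.toReal_mono ENNReal.one_ne_top h.le
  obtain ⟨s', hs'1, hs'2⟩ := exists_between hs1
  have hs'0 : 0 < s' := by linarith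
  set S : ℝ≥0 := ⟨s', hs'0.le⟩ with hS
  have hSr : (S : ℝ) = s' := rfl
  have hS0 : 0 < S := by
    rw [← NNReal.coe_pos, hSr]; exact hs'0
  have hS1 : S ≤ 1 := by
    rw [← NNReal.coe_le_coe, hSr, NNReal.coe_one]; linarith
  have hκ0 : 0 < κ := by linarith
  have h31 : 2 < κ * S := by
    rw [hSr]
    have : 2 / κ < s' := lt_of_le_of_lt (le_max_left _ _) hs'1
    rw [div_lt_iff₀ hκ0] at this
    linarith
  have h32 : 3 < (κ + 2 * μ) * S := by
    rw [hSr]
    have : 3 / (κ + 2 * μ) < s' := lt_of_le_of_lt (le_max_right _ _) hs'1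
    rw [div_lt_iff₀ (by linarith)] at this
    linarith
  have hA : ({x : ℝ | IsAlgebraic ℤ x}).Countable := Algebraic.countable ℤ ℝ
  have h4 : dimH (Exc κ μ) ≤ S := by
    refine (dimH_mono (exc_sub κ μ (by linarith) hμ)).trans ?_
    rw [dimH_union, dimH_union, dimH_countable hA]
    refine max_le (by simp) (max_le (dim_LQ κ μ S hμ hS0 hS1 h31 h32)
      (dim_LL κ S hS0 hS1 h31))
  refine lt_of_le_of_lt h4 (lt_of_lt_of_le ?_ hs3)
  have : (S : ℝ≥0∞) = ENNReal.ofReal s' := by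
    rw [← hSr, ENNReal.ofReal_coe_nnreal]
  rw [this]
  exact (ENNReal.ofReal_lt_ofReal_iff (by linarith)).2 hs'2

end Pool.Agent.X124.MD
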