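import Mathlib
import Pool.Agent.X124.MV.Sharp2
import Pool.Agent.X124.MD.Up
import Pool.Agent.X124.MD.Rich

set_option autoImplicit false

/-!
The lower bound for the dimension: quadratic numbers.
-/

namespace Pool.Agent.X124.MD

open Finset Pool.Agent.H813R3.Voj Filter MeasureTheory Topology Pool.Agent.X124.MV
  Polynomial Pool.Agent.H990R4.VJ Pool.Agent.W226.VQ Pool.Agent.X4.JB
open scoped ENNReal NNReal

lemma sum_inv_sqrt (m : ℕ) : ∑ n ∈ Finset.Icc 1 m, (n : ℝ) ^ (-(1 / 2 : ℝ)) ≤ 2 * Real.sqrt m := by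
  induction m with
  | zero => simp
  | succ m ih =>
    rw [← Finset.insert_Icc_right_eq_Icc_add_one (by omega), Finset.sum_insert (by simp)]
    have h0 : (0 : ℝ) < ((m + 1 : ℕ) : ℝ) := by positivity
    set b : ℝ := Real.sqrt ((m + 1 : ℕ) : ℝ) with hb
    set a : ℝ := Real.sqrt (m : ℝ) with ha
    have hb0 : 0 < b := Real.sqrt_pos.2 h0
    have ha0 : 0 ≤ a := Real.sqrt_nonneg _
    have hb2 : b ^ 2 = m + 1 := by rw [hb, Real.sq_sqrt h0.le]; push_cast; ring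
    have ha2 : a ^ 2 = m := by rw [ha, Real.sq_sqrt (Nat.cast_nonneg _)]
    have e : (((m + 1 : ℕ) : ℝ)) ^ (-(1 / 2 : ℝ)) = 1 / b := by
      rw [Real.rpow_neg h0.le, hb, Real.sqrt_eq_rpow]
      exact (one_div _).symm
    rw [e]
    have h1 : 1 / b ≤ 2 * (b - a) := by
      rw [div_le_iff₀ hb0]
      nlinarith [sq_nonneg (b - a)]
    linarith

/-- **The value at a polynomial of small discriminant is not very small.** -/
theorem ae_disc (η : ℝ) (hη : 0 < η) : ∀ᵐ x : ℝ, ∃ k0 : ℕ, ∀ k, k0 ≤ k →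
    ∀ u ∈ box (2 ^ k), ¬ IsSquare (ds u) → ((ds u).natAbs : ℝ) ≤ ((2 : ℝ) ^ k) ^ (2 - 2 * η) →
      ((2 : ℝ) ^ k) ^ (-2 + η / 2) < |ev u x| := by
  classical
  obtain ⟨C, hC, hsum⟩ := sum_box (η / 4) (by positivity)
  set t : ℕ → ℝ := fun k => ((2 : ℝ) ^ k) ^ (-2 + η / 2) with ht
  set Y : ℕ → ℝ := fun k => ((2 : ℝ) ^ k) ^ (2 - 2 * η) with hY
  set J : ℕ → Finset (ℤ × ℤ × ℤ) := fun k => ((box (2 ^ k)).filter fun u => ¬ IsSquare (ds u)).filter
    fun u => ((ds u).natAbs : ℝ) ≤ Y k with hJ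
  set E : ℕ → Set ℝ := fun k => ⋃ u ∈ J k, {x : ℝ | |ev u x| ≤ t k} with hE
  set r : ℝ := (2 : ℝ) ^ (-(η / 4)) with hr
  have hr0 : 0 < r := by positivity
  have hr1 : r < 1 := Real.rpow_lt_one_of_one_lt_of_neg (by norm_num) (by linarith)
  have hvol : ∀ k, volume (E k) ≤ ENNReal.ofReal (16 * C * ((k : ℝ) + 1) ^ 0 * r ^ k) := by
    intro k
    refine (measure_biUnion_finset_le _ _).trans ?_
    have htk : 0 < t k := by rw [ht]; positivity
    have h1 : ∀ u ∈ J k, volume {x : ℝ | |ev u x| ≤ t k} ≤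
        ENNReal.ofReal (8 * t k * (1 / Pool.Agent.X124.MV.rd u)) := by
      intro u hu
      refine (vol_le u (Finset.mem_filter.1 (Finset.mem_filter.1 hu).1).2 _).trans (le_of_eq ?_)
      congr 1
      ring
    refine (Finset.sum_le_sum h1).trans ?_
    have hrdp : ∀ u ∈ J k, 0 < Pool.Agent.X124.MV.rd u := fun u hu =>
      rd_pos (ne_of_not_sq (Finset.mem_filter.1 (Finset.mem_filter.1 hu).1).2).2
    rw [← ENNReal.ofReal_sum_of_nonneg (fun u hu => by
      have := hrdp u hu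
      positivity)]
    apply ENNReal.ofReal_le_ofReal
    rw [← Finset.mul_sum]
    have h2 : ∑ u ∈ J k, 1 / Pool.Agent.X124.MV.rd u =
        ∑ u ∈ (box (2 ^ k)).filter (fun u => ¬ IsSquare (ds u)),
          (fun n : ℕ => if (n : ℝ) ≤ Y k then (n : ℝ) ^ (-(1 / 2 : ℝ)) else 0) (ds u).natAbs := by
      rw [hJ]
      simp only
      rw [Finset.sum_filter (s := (box (2 ^ k)).filter fun u => ¬ IsSquare (ds u))]
      refine Finset.sum_congr rfl fun u _ => ?_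
      split_ifs with h
      · unfold Pool.Agent.X124.MV.rd
        rw [Real.sqrt_eq_rpow, Real.rpow_neg (Nat.cast_nonneg _), one_div]
      · rfl
    have h3 := hsum (2 ^ k) Nat.one_le_two_pow
      (fun n : ℕ => if (n : ℝ) ≤ Y k then (n : ℝ) ^ (-(1 / 2 : ℝ)) else 0) (fun n => by
        split_ifs
        · positivity
        · exact le_refl _)
    have hYk : 0 < Y k := by rw [hY]; positivity
    have h4 : ∑ n ∈ (Finset.Icc 1 (5 * (2 ^ k) ^ 2) : Finset ℕ),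
        (if (n : ℝ) ≤ Y k then (n : ℝ) ^ (-(1 / 2 : ℝ)) else 0) ≤ 2 * ((2 : ℝ) ^ k) ^ (1 - η) := by
      rw [← Finset.sum_filter]
      have hsub : (Finset.Icc 1 (5 * (2 ^ k) ^ 2)).filter (fun n : ℕ => (n : ℝ) ≤ Y k) ⊆
          Finset.Icc 1 ⌊Y k⌋₊ := by
        intro n hn
        rw [Finset.mem_filter, Finset.mem_Icc] at hn
        rw [Finset.mem_Icc]
        exact ⟨hn.1.1, Nat.le_floor hn.2⟩
      refine (Finset.sum_le_sum_of_subset_of_nonneg hsub fun _ _ _ => by positivity).trans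
        ((sum_inv_sqrt _).trans ?_)
      have h5 : Real.sqrt (⌊Y k⌋₊ : ℝ) ≤ ((2 : ℝ) ^ k) ^ (1 - η) := by
        rw [Real.sqrt_le_left (by positivity)]
        refine (Nat.floor_le hYk.le).trans (le_of_eq ?_)
        rw [hY]
        simp only
        rw [← Real.rpow_natCast (((2 : ℝ) ^ k) ^ (1 - η)) 2, ← Real.rpow_mul (by positivity)]
        congr 1
        push_cast
        ring
      linarith
    rw [h2]
    push_cast at h3 h4
    calc 8 * t k * _ ≤ 8 * t k * (C * ((2 : ℝ) ^ k) ^ (1 + η / 4) * (2 * ((2 : ℝ) ^ k) ^ (1 - η))) := by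
          apply mul_le_mul_of_nonneg_left _ (by positivity)
          exact h3.trans (mul_le_mul_of_nonneg_left h4 (by positivity))
      _ = 16 * C * (((2 : ℝ) ^ k) ^ (-2 + η / 2) * ((2 : ℝ) ^ k) ^ (1 + η / 4) *
            ((2 : ℝ) ^ k) ^ (1 - η)) := by
          rw [ht]; ring
      _ = 16 * C * ((k : ℝ) + 1) ^ 0 * r ^ k := by
          rw [← Real.rpow_add (by positivity), ← Real.rpow_add (by positivity), pow_zero, mul_one, hr,
            ← pow_two_rpow]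
          congr 2
          ring
  have hBC := ae_eventually_notMem (tsum_ne_top hr0 hr1 (by positivity) 0 hvol)
  filter_upwards [hBC] with x hx
  obtain ⟨k0, hk0⟩ := eventually_atTop.1 hx
  refine ⟨k0, fun k hk u hu hns hd => ?_⟩
  have h5 := hk0 k hk
  rw [hE] at h5
  simp only [Set.mem_iUnion, not_exists, Set.mem_ofPred_eq, not_le] at h5
  exact h5 u (Finset.mem_filter.2 ⟨Finset.mem_filter.2 ⟨hu, hns⟩, hd⟩)

/-- the real root next to `x` -/
lemma near_root (u : ℤ × ℤ × ℤ) (ha : u.1 ≠ 0) (hd : 0 < ds u) (x : ℝ) :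
    ∃ y : ℝ, ev u y = 0 ∧ |x - y| ≤ 2 * |ev u x| / Pool.Agent.X124.MV.rd u := by
  have ha' : (u.1 : ℝ) ≠ 0 := by exact_mod_cast ha
  have ha0 : 0 < |(u.1 : ℝ)| := abs_pos.2 ha'
  have hr := rd_pos hd.ne'
  have hr2 := rd_sq u
  set R := Pool.Agent.X124.MV.rd u with hR
  have hds : (ds u : ℝ) = (u.2.1 : ℝ) ^ 2 - 4 * u.1 * u.2.2 := by unfold ds; push_cast; ring
  have hds0 : (0 : ℝ) < ds u := by exact_mod_cast hd
  rw [abs_of_pos hds0, hds] at hr2
  set y1 : ℝ := (-(u.2.1 : ℝ) + R) / (2 * u.1) with hy1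
  set y2 : ℝ := (-(u.2.1 : ℝ) - R) / (2 * u.1) with hy2
  have hfac : ∀ z : ℝ, ev u z = u.1 * ((z - y1) * (z - y2)) := by
    intro z
    unfold Pool.Agent.X124.MV.ev
    rw [hy1, hy2]
    field_simp
    linear_combination hr2
  have hdiff : y1 - y2 = R / u.1 := by
    rw [hy1, hy2]
    field_simp
    ring
  have habs : |y1 - y2| = R / |(u.1 : ℝ)| := by rw [hdiff, abs_div, abs_of_pos hr]
  have htri : |y1 - y2| ≤ |x - y1| + |x - y2| := by
    have := abs_sub_le y1 x y2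
    rw [abs_sub_comm y1 x] at this
    exact this
  have hex : |ev u x| = |(u.1 : ℝ)| * (|x - y1| * |x - y2|) := by
    rw [hfac, abs_mul, abs_mul]
  have hRa : |(u.1 : ℝ)| * (R / |(u.1 : ℝ)|) = R := by field_simp
  rw [habs] at htri
  rcases le_total |x - y1| |x - y2| with h | h
  · refine ⟨y1, by rw [hfac]; ring, ?_⟩
    rw [le_div_iff₀ hr, hex]
    have h1 : R / |(u.1 : ℝ)| ≤ 2 * |x - y2| := by linarith
    have h2 : R ≤ |(u.1 : ℝ)| * (2 * |x - y2|) := by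
      rw [← hRa]; exact mul_le_mul_of_nonneg_left h1 ha0.le
    calc |x - y1| * R ≤ |x - y1| * (|(u.1 : ℝ)| * (2 * |x - y2|)) :=
          mul_le_mul_of_nonneg_left h2 (abs_nonneg _)
      _ = _ := by ring
  · refine ⟨y2, by rw [hfac]; ring, ?_⟩
    rw [le_div_iff₀ hr, hex]
    have h1 : R / |(u.1 : ℝ)| ≤ 2 * |x - y1| := by linarith
    have h2 : R ≤ |(u.1 : ℝ)| * (2 * |x - y1|) := by
      rw [← hRa]; exact mul_le_mul_of_nonneg_left h1 ha0.le
    calc |x - y2| * R ≤ |x - y2| * (|(u.1 : ℝ)| * (2 * |x - y1|)) :=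
          mul_le_mul_of_nonneg_left h2 (abs_nonneg _)
      _ = _ := by ring

/-- Dirichlet's theorem with an irreducible polynomial -/
theorem quad_at {x c : ℝ} (hc : 0 < c) (hlow : ∀ g : ℤ[X], g ≠ 0 → g.natDegree ≤ 1 →
      c * (mm g) ^ (-(3 / 2 : ℝ)) ≤ |aeval x g|) (hx0 : 0 ≤ x) (hx1 : x ≤ 1) (N : ℕ)
    (hN1 : 1 ≤ N) (hN2 : 729 / c ^ 4 < (N : ℝ)) : ∃ f : ℤ[X], Irreducible f ∧ f.natDegree = 2 ∧
      mm f ≤ 9 * N ∧ |aeval x f| ≤ 1 / (N : ℝ) ^ 2 := by
  have hNr : (1 : ℝ) ≤ N := by exact_mod_cast hN1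
  have hN0 : (0 : ℝ) < N := by linarith
  obtain ⟨a, b, e, hab, ha, hb, hv⟩ := dirichlet_two (x ^ 2) x N hN1
  set P : ℤ[X] := C a * X ^ 2 + C b * X + C e with hP
  have hPc2 : P.coeff 2 = a := by
    rw [hP]
    simp only [coeff_add, coeff_C_mul, coeff_X_pow, coeff_X, coeff_C]
    norm_num
  have hPc1 : P.coeff 1 = b := by
    rw [hP]
    simp only [coeff_add, coeff_C_mul, coeff_X_pow, coeff_X, coeff_C]
    norm_num
  have hPc0 : P.coeff 0 = e := by
    rw [hP]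
    simp only [coeff_add, coeff_C_mul, coeff_X_pow, coeff_X, coeff_C]
    norm_num
  have hP0 : P ≠ 0 := by
    intro h0
    rw [h0, coeff_zero] at hPc2 hPc1
    rcases hab with h | h
    · exact h hPc2.symm
    · exact h hPc1.symm
  have hPd : P.natDegree ≤ 2 := by rw [hP]; exact natDegree_quadratic_le
  have hPev : aeval x P = (a : ℝ) * x ^ 2 + b * x + e := by
    rw [hP]; simp
  have hval : |aeval x P| ≤ 1 / (N : ℝ) ^ 2 := by rw [hPev]; exact hv
  have hx2 : x ^ 2 ≤ 1 := by nlinarith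
  -- the size of `P`
  have he : |(e : ℝ)| ≤ 3 * N := by
    have e1 : (e : ℝ) = ((a : ℝ) * x ^ 2 + b * x + e) - ((a : ℝ) * x ^ 2) - (b * x) := by ring
    rw [e1]
    have e2 : 1 / (N : ℝ) ^ 2 ≤ N := by
      rw [div_le_iff₀ (by positivity)]
      nlinarith [sq_nonneg ((N : ℝ) - 1), mul_nonneg hN0.le (sq_nonneg ((N : ℝ)))]
    have e3 : |(a : ℝ) * x ^ 2| ≤ N := by
      rw [abs_mul, abs_of_nonneg (sq_nonneg x)]
      calc |(a : ℝ)| * x ^ 2 ≤ N * 1 := mul_le_mul ha hx2 (sq_nonneg x) hN0.le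
        _ = N := mul_one _
    have e4 : |(b : ℝ) * x| ≤ N := by
      rw [abs_mul, abs_of_nonneg hx0]
      calc |(b : ℝ)| * x ≤ N * 1 := mul_le_mul hb hx1 hx0 hN0.le
        _ = N := mul_one _
    calc _ ≤ |((a : ℝ) * x ^ 2 + b * x + e) - ((a : ℝ) * x ^ 2)| + |(b : ℝ) * x| := abs_sub _ _
      _ ≤ |(a : ℝ) * x ^ 2 + b * x + e| + |(a : ℝ) * x ^ 2| + |(b : ℝ) * x| := by
          gcongr; exact abs_sub _ _
      _ ≤ 3 * N := by linarith
  have hhn : (hn (cu P) : ℝ) ≤ 3 * N := by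
    apply hn_le
    · show |((P.coeff 2 : ℤ) : ℝ)| ≤ _
      rw [hPc2]; linarith
    · show |((P.coeff 1 : ℤ) : ℝ)| ≤ _
      rw [hPc1]; linarith
    · show |((P.coeff 0 : ℤ) : ℝ)| ≤ _
      rw [hPc0]; exact he
  have hmm : mm P ≤ 9 * N := by
    have := mm_le_hn P hPd
    linarith
  have hmmP : 1 ≤ mm P := one_le_mm hP0
  -- `P` is not a product of two linear polynomials
  have hprod : ∀ g h : ℤ[X], g.natDegree ≤ 1 → h.natDegree ≤ 1 → P ≠ g * h := by
    intro g h hg hh hgh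
    have hg0 : g ≠ 0 := by rintro rfl; rw [zero_mul] at hgh; exact hP0 hgh
    have hh0 : h ≠ 0 := by rintro rfl; rw [mul_zero] at hgh; exact hP0 hgh
    have l1 := hlow g hg0 hg
    have l2 := hlow h hh0 hh
    have hg1 := one_le_mm hg0
    have hh1 := one_le_mm hh0
    have l3 : c * mm g ^ (-(3 / 2 : ℝ)) * (c * mm h ^ (-(3 / 2 : ℝ))) ≤ |aeval x P| := by
      rw [hgh, map_mul, abs_mul]
      exact mul_le_mul l1 l2 (by positivity) (abs_nonneg _)
    have l4 : c * mm g ^ (-(3 / 2 : ℝ)) * (c * mm h ^ (-(3 / 2 : ℝ))) =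
        c ^ 2 * mm P ^ (-(3 / 2 : ℝ)) := by
      rw [hgh, mm_mul', Real.mul_rpow (by linarith) (by linarith)]
      ring
    rw [l4] at l3
    have l5 : c ^ 2 * (9 * N) ^ (-(3 / 2 : ℝ)) ≤ 1 / (N : ℝ) ^ 2 := by
      refine le_trans ?_ (l3.trans hval)
      exact mul_le_mul_of_nonneg_left
        (Real.rpow_le_rpow_of_nonpos (by linarith) hmm (by norm_num)) (by positivity)
    have l6 : (c ^ 2 * (9 * N) ^ (-(3 / 2 : ℝ))) ^ 2 ≤ (1 / (N : ℝ) ^ 2) ^ 2 :=
      pow_le_pow_left₀ (by positivity) l5 2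
    have l7 : (c ^ 2 * (9 * N) ^ (-(3 / 2 : ℝ))) ^ 2 = c ^ 4 / (9 * N) ^ 3 := by
      rw [mul_pow, ← Real.rpow_natCast ((9 * N) ^ (-(3 / 2 : ℝ))) 2, ← Real.rpow_mul (by positivity),
        show (-(3 / 2 : ℝ)) * ((2 : ℕ) : ℝ) = -((3 : ℕ) : ℝ) by norm_num,
        Real.rpow_neg (by positivity), Real.rpow_natCast, div_eq_mul_inv]
      ring
    rw [l7, div_pow, one_pow, div_le_div_iff₀ (by positivity) (by positivity), one_mul] at l6
    rw [div_lt_iff₀ (by positivity)] at hN2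
    have l8 : (9 * (N : ℝ)) ^ 3 < c ^ 4 * ((N : ℝ) ^ 2) ^ 2 := by
      have h9 : 0 < (N : ℝ) ^ 3 := by positivity
      calc (9 * (N : ℝ)) ^ 3 = 729 * (N : ℝ) ^ 3 := by ring
        _ < (N * c ^ 4) * (N : ℝ) ^ 3 := mul_lt_mul_of_pos_right hN2 h9
        _ = _ := by ring
    linarith
  obtain ⟨hirr, hdeg⟩ := irr_of_not_prod P hprod hPd
  obtain ⟨hm2, hv2⟩ := prim_small P hP0 x
  exact ⟨P.primPart, hirr, hdeg, hm2.trans hmm, hv2.trans hval⟩

/-- the real quadratic numbers with an upper bound for the Mahler measure -/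
def TQ : Set (ℝ × ℝ) := {p | ∃ f : ℤ[X], Irreducible f ∧ f.natDegree = 2 ∧ aeval p.1 f = 0 ∧
  mm f ≤ p.2}

/-- **Almost every number is close to quadratic numbers.** -/
theorem ae_TQ (γ' : ℝ) (hγ' : γ' < 3) : ∀ᵐ x : ℝ, x ∈ Set.Icc (0 : ℝ) 1 → ∃ K : ℝ, ∀ X : ℝ,
    K ≤ X → ∃ y, (y, X) ∈ TQ ∧ |x - y| ≤ X ^ (-γ') := by
  set η : ℝ := min ((3 - γ') / 2) (1 / 2) with hη
  have hη0 : 0 < η := lt_min (by linarith) (by norm_num)
  have hη1 : η ≤ 1 / 2 := min_le_right _ _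
  have hη2 : η ≤ (3 - γ') / 2 := min_le_left _ _
  filter_upwards [ae_disc η hη0, ae_lin (1 / 2) (by norm_num)] with x hx hlin hxI
  obtain ⟨c, hc, hlow⟩ := low_lin (x := x) (by
    obtain ⟨c, hc, h⟩ := hlin
    refine ⟨c, hc, fun v hv => ?_⟩
    have h1 := h v.1 v.2 hv
    have e : (1 : ℝ) / (((1 : ℕ) : ℝ) + 1) = 1 / 2 := by norm_num
    rw [e]
    exact h1)
  obtain ⟨k0, hk0⟩ := hx
  -- large `X`
  have ev1 : ∀ᶠ X : ℝ in atTop, 648 ≤ X ^ η :=
    (tendsto_rpow_atTop hη0).eventually_ge_atTop 648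
  have ev2 : ∀ᶠ X : ℝ in atTop, 26244 ≤ X ^ (η / 2) :=
    (tendsto_rpow_atTop (by positivity)).eventually_ge_atTop 26244
  obtain ⟨K, hK⟩ := ((ev1.and ev2).and ((eventually_ge_atTop (10000 : ℝ)).and
    ((eventually_ge_atTop ((2 : ℝ) ^ k0)).and (eventually_ge_atTop (18 * (729 / c ^ 4 + 1)))))).exists_forall_of_atTop
  refine ⟨K, fun X hX => ?_⟩
  obtain ⟨⟨h1, h2⟩, h3, h4, h5⟩ := hK X hX
  have hX0 : 0 < X := by linarith
  set N : ℕ := ⌊X / 9⌋₊ with hN
  have hN9 : (N : ℝ) ≤ X / 9 := Nat.floor_le (by positivity)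
  have hN18 : X / 18 ≤ N := by
    have := Nat.lt_floor_add_one (X / 9)
    rw [← hN] at this
    linarith
  have hNpos : (0 : ℝ) < N := by linarith
  have hN1 : 1 ≤ N := by
    have : (0 : ℕ) < N := by exact_mod_cast hNpos
    omega
  obtain ⟨f, hirr, hdeg, hmf, hvf⟩ := quad_at hc hlow hxI.1 hxI.2 N hN1 (by linarith)
  have hmfX : mm f ≤ X := by linarith
  have hv : |aeval x f| ≤ 324 / X ^ 2 := by
    refine hvf.trans ?_
    rw [div_le_div_iff₀ (by positivity) (by positivity)]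
    have : (X / 18) ^ 2 ≤ (N : ℝ) ^ 2 := pow_le_pow_left₀ (by positivity) hN18 2
    nlinarith
  have hns := not_sq hirr hdeg
  have hne := ne_of_not_sq hns
  have hhn := hn_le_mm f hdeg
  -- the scale
  set m : ℕ := ⌈4 * X⌉₊ with hm
  have hm1 : 4 * X ≤ m := Nat.le_ceil _
  have hm2 : (m : ℝ) < 4 * X + 1 := Nat.ceil_lt_add_one (by positivity)
  have hm3 : 1 ≤ m := by
    have : (0 : ℝ) < m := by linarith
    have : (0 : ℕ) < m := by exact_mod_cast this
    omega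
  obtain ⟨k, -, hk1, hk2⟩ := scale 0 m hm3
  have hk1' : (m : ℝ) ≤ (2 : ℝ) ^ k := by exact_mod_cast hk1
  have hk2' : (2 : ℝ) ^ k ≤ 2 * m := by
    have : (2 : ℝ) ^ k ≤ 2 ^ (0 + 1) * m := by exact_mod_cast hk2
    simpa using this
  have hk9 : (2 : ℝ) ^ k ≤ 9 * X := by linarith
  have hkX : X ≤ (2 : ℝ) ^ k := by linarith
  have hkk : k0 ≤ k := by
    by_contra hcon
    push Not at hcon
    have : (2 : ℝ) ^ k < (2 : ℝ) ^ k0 := pow_lt_pow_right₀ (by norm_num) hcon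
    linarith
  have hbox : cu f ∈ box (2 ^ k) := by
    apply mem_box_of_hn
    have : (hn (cu f) : ℝ) ≤ ((2 ^ k : ℕ) : ℝ) := by
      push_cast
      linarith
    exact_mod_cast this
  have h2k0 : (0 : ℝ) < (2 : ℝ) ^ k := by positivity
  -- the discriminant is large
  have hdisc : ((2 : ℝ) ^ k) ^ (2 - 2 * η) < ((ds (cu f)).natAbs : ℝ) := by
    by_contra hcon
    push Not at hcon
    have h6 := hk0 k hkk (cu f) hbox hns hcon
    rw [ev_cu f hdeg.le] at h6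
    have h7 : 324 / X ^ 2 ≤ ((2 : ℝ) ^ k) ^ (-2 + η / 2) := by
      have e1 : ((2 : ℝ) ^ k) ^ (-2 + η / 2) = ((2 : ℝ) ^ k) ^ (η / 2) / ((2 : ℝ) ^ k) ^ 2 := by
        rw [Real.rpow_add h2k0, Real.rpow_neg h2k0.le, Real.rpow_two]
        ring
      have e2 : X ^ (η / 2) ≤ ((2 : ℝ) ^ k) ^ (η / 2) :=
        Real.rpow_le_rpow hX0.le hkX (by positivity)
      rw [e1, div_le_div_iff₀ (by positivity) (by positivity)]
      have e3 : ((2 : ℝ) ^ k) ^ 2 ≤ (9 * X) ^ 2 := pow_le_pow_left₀ h2k0.le hk9 2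
      have e4 : 26244 * X ^ 2 ≤ ((2 : ℝ) ^ k) ^ (η / 2) * X ^ 2 :=
        mul_le_mul_of_nonneg_right (h2.trans e2) (by positivity)
      nlinarith
    linarith
  have hdisc2 : X ^ (2 - 2 * η) ≤ ((ds (cu f)).natAbs : ℝ) :=
    (Real.rpow_le_rpow hX0.le hkX (by linarith)).trans hdisc.le
  -- the discriminant is positive
  have hdpos : 0 < ds (cu f) := by
    have h6 : 4 * ((cu f).1 : ℝ) * ev (cu f) x = (2 * (cu f).1 * x + (cu f).2.1) ^ 2 - ds (cu f) := by
      unfold Pool.Agent.X124.MV.ev ds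
      push_cast
      ring
    have h7 : |4 * ((cu f).1 : ℝ) * ev (cu f) x| < 1 := by
      rw [abs_mul, abs_mul, ev_cu f hdeg.le, abs_of_pos (by norm_num : (0 : ℝ) < 4)]
      have h8 : |((cu f).1 : ℝ)| ≤ 4 * X := (abs_coef_le (cu f)).1.trans (by linarith)
      calc 4 * |((cu f).1 : ℝ)| * |aeval x f| ≤ 4 * (4 * X) * (324 / X ^ 2) :=
            mul_le_mul (by linarith) hv (abs_nonneg _) (by positivity)
        _ = 5184 / X := by field_simp; norm_num
        _ < 1 := by rw [div_lt_one hX0]; linarith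
    by_contra hcon
    push Not at hcon
    have h9 : ds (cu f) ≤ -1 := by
      have := hne.2
      omega
    have h10 : (ds (cu f) : ℝ) ≤ -1 := by exact_mod_cast h9
    have h11 := (abs_lt.1 h7).2
    have := sq_nonneg (2 * ((cu f).1 : ℝ) * x + (cu f).2.1)
    linarith
  obtain ⟨y, hy1, hy2⟩ := near_root (cu f) hne.1 hdpos x
  refine ⟨y, ⟨f, hirr, hdeg, ?_, hmfX⟩, ?_⟩
  · rw [← ev_cu f hdeg.le]; exact hy1
  · refine hy2.trans ?_
    rw [ev_cu f hdeg.le]
    have hrd : X ^ (1 - η) ≤ Pool.Agent.X124.MV.rd (cu f) := by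
      unfold Pool.Agent.X124.MV.rd
      apply Real.le_sqrt_of_sq_le
      refine le_trans (le_of_eq ?_) hdisc2
      rw [← Real.rpow_natCast (X ^ (1 - η)) 2, ← Real.rpow_mul hX0.le]
      congr 1
      push_cast
      ring
    have hX1η : 0 < X ^ (1 - η) := Real.rpow_pos_of_pos hX0 _
    calc 2 * |aeval x f| / Pool.Agent.X124.MV.rd (cu f) ≤ 2 * (324 / X ^ 2) / X ^ (1 - η) := by
          apply div_le_div₀ (by positivity) (by linarith) hX1η hrd
      _ = 648 * X ^ (-(3 - η)) := by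
          have : X ^ (-(3 - η)) = (X ^ 2)⁻¹ * (X ^ (1 - η))⁻¹ := by
            rw [← Real.rpow_two, ← Real.rpow_neg hX0.le, ← Real.rpow_neg hX0.le,
              ← Real.rpow_add hX0]
            congr 1
            ring
          rw [this]
          field_simp
          norm_num
      _ ≤ X ^ η * X ^ (-(3 - η)) := mul_le_mul_of_nonneg_right h1 (by positivity)
      _ = X ^ (-(3 - 2 * η)) := by
          rw [← Real.rpow_add hX0]
          congr 1
          ring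
      _ ≤ X ^ (-γ') := Real.rpow_le_rpow_of_exponent_le (by linarith) (by linarith)

end Pool.Agent.X124.MD
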