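import Mathlib
import Pool.Agent.X124.MD.Low

set_option autoImplicit false

/-!
The lower bound for the dimension: rational numbers, and the end of the proof.
-/

namespace Pool.Agent.X124.MD

open Finset Pool.Agent.H813R3.Voj Filter MeasureTheory Topology Pool.Agent.X124.MV
  Polynomial Pool.Agent.H990R4.VJ Pool.Agent.W226.VQ Pool.Agent.X4.JB
open scoped ENNReal NNReal

/-- the rational numbers with an upper bound for the Mahler measure -/
def TL : Set (ℝ × ℝ) := {p | ∃ f : ℤ[X], Irreducible f ∧ f.natDegree = 1 ∧ aeval p.1 f = 0 ∧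
  mm f ≤ p.2}

/-- **Almost every number is close to rational numbers.** -/
theorem ae_TL (γ' : ℝ) (hγ' : γ' < 2) : ∀ᵐ x : ℝ, x ∈ Set.Icc (0 : ℝ) 1 → ∃ K : ℝ, ∀ X : ℝ,
    K ≤ X → ∃ y, (y, X) ∈ TL ∧ |x - y| ≤ X ^ (-γ') := by
  set η : ℝ := min ((2 - γ') / 2) (1 / 2) with hη
  have hη0 : 0 < η := lt_min (by linarith) (by norm_num)
  have hη1 : η ≤ 1 / 2 := min_le_right _ _
  have hη2 : η ≤ (2 - γ') / 2 := min_le_left _ _
  filter_upwards [ae_lin η hη0] with x hlin hxI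
  obtain ⟨c, hc, hlow⟩ := hlin
  have hx0 : 0 ≤ x := hxI.1
  have hx1 : x ≤ 1 := hxI.2
  set K1 : ℝ := 24 * (12 / c) ^ (1 - η) with hK1
  have ev1 : ∀ᶠ X : ℝ in atTop, K1 ≤ X ^ η := (tendsto_rpow_atTop hη0).eventually_ge_atTop K1
  obtain ⟨K, hK⟩ := (ev1.and ((eventually_ge_atTop (100 : ℝ)).and
    (eventually_ge_atTop (12 / c)))).exists_forall_of_atTop
  refine ⟨K, fun X hX => ?_⟩
  obtain ⟨h1, h2, h3⟩ := hK X hX
  have hX0 : 0 < X := by linarith
  set N : ℕ := ⌊X / 6⌋₊ with hN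
  have hN6 : (N : ℝ) ≤ X / 6 := Nat.floor_le (by positivity)
  have hN12 : X / 12 ≤ N := by
    have := Nat.lt_floor_add_one (X / 6)
    rw [← hN] at this
    linarith
  have hN0 : (0 : ℝ) < N := by linarith
  have hN1 : 1 ≤ N := by
    have : (0 : ℕ) < N := by exact_mod_cast hN0
    omega
  obtain ⟨j, k, hk0, hkN, hjk⟩ := Real.exists_int_int_abs_mul_sub_le x (n := N) (by omega)
  have hkr : (k : ℝ) ≤ N := by exact_mod_cast hkN
  have hk1 : (0 : ℝ) < k := by exact_mod_cast hk0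
  have hk1' : (1 : ℝ) ≤ k := by exact_mod_cast hk0
  set P : Polynomial ℤ := C k * Polynomial.X + C (-j) with hP
  have hPc1 : P.coeff 1 = k := by
    rw [hP]
    simp only [coeff_add, coeff_C_mul, coeff_X, coeff_C]
    norm_num
  have hPc0 : P.coeff 0 = -j := by
    rw [hP]
    simp only [coeff_add, coeff_C_mul, coeff_X, coeff_C]
    norm_num
  have hPd : P.natDegree = 1 := by rw [hP]; exact natDegree_linear (by omega)
  have hP0 : P ≠ 0 := by intro h0; rw [h0] at hPd; simp at hPd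
  have hPev : aeval x P = (k : ℝ) * x - j := by
    rw [hP]; simp; ring
  have hval : |aeval x P| ≤ 1 / (N : ℝ) := by
    rw [hPev]
    refine hjk.trans ?_
    exact one_div_le_one_div_of_le hN0 (by linarith)
  have hab : ∀ a : ℤ, (a.natAbs : ℝ) = |(a : ℝ)| := by
    intro a
    rw [Nat.cast_natAbs]; push_cast; rfl
  have hN11 : 1 / (N : ℝ) ≤ 1 := by
    rw [div_le_one hN0]; exact_mod_cast hN1
  have hj : |(j : ℝ)| ≤ 2 * N := by
    have e1 : (j : ℝ) = k * x - ((k : ℝ) * x - j) := by ring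
    rw [e1]
    have e3 : |(k : ℝ) * x| ≤ N := by
      rw [abs_mul, abs_of_pos hk1, abs_of_nonneg hx0]
      nlinarith
    rw [hPev] at hval
    have hN1r : (1 : ℝ) ≤ N := by exact_mod_cast hN1
    calc _ ≤ |(k : ℝ) * x| + |(k : ℝ) * x - j| := abs_sub _ _
      _ ≤ 2 * N := by linarith
  have hln : (ln (P.coeff 1, P.coeff 0) : ℝ) ≤ 2 * N := by
    unfold ln
    rw [hPc1, hPc0, Int.natAbs_neg]
    push_cast
    apply max_le
    · rw [hab, abs_of_pos hk1]
      linarith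
    · rw [hab]
      exact hj
  have hmm : mm P ≤ X := by
    have := (ln_mm P hPd).2
    linarith
  obtain ⟨hirr, hdeg⟩ := irr_lin P hPd
  obtain ⟨hm2, hv2⟩ := prim_small P hP0 x
  set f := P.primPart with hf
  have hlc : f.coeff 1 ≠ 0 := by
    rw [← hdeg, coeff_natDegree, leadingCoeff_ne_zero]; exact hirr.ne_zero
  have hlcr : (f.coeff 1 : ℝ) ≠ 0 := by exact_mod_cast hlc
  have hev' : aeval x f = (f.coeff 1 : ℝ) * x + f.coeff 0 := by
    rw [aeval_eq_sum_range' (n := 2) (by omega)]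
    simp only [Finset.sum_range_succ, Finset.range_zero, Finset.sum_empty, zsmul_eq_mul]
    ring
  have hvf : |aeval x f| ≤ 12 / X := by
    refine (hv2.trans hval).trans ?_
    rw [div_le_div_iff₀ hN0 hX0]
    linarith
  have hb1 : (1 : ℝ) ≤ |(f.coeff 1 : ℝ)| := by exact_mod_cast Int.one_le_abs hlc
  have hvf1 : |aeval x f| ≤ 1 := hvf.trans (by rw [div_le_one hX0]; linarith)
  have hb0 : |(f.coeff 0 : ℝ)| ≤ 2 * |(f.coeff 1 : ℝ)| := by
    have e1 : (f.coeff 0 : ℝ) = aeval x f - (f.coeff 1 : ℝ) * x := by rw [hev']; ring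
    have e2 : |(f.coeff 1 : ℝ) * x| ≤ |(f.coeff 1 : ℝ)| := by
      rw [abs_mul, abs_of_nonneg hx0]
      nlinarith
    calc |(f.coeff 0 : ℝ)| = |aeval x f - (f.coeff 1 : ℝ) * x| := by rw [← e1]
      _ ≤ |aeval x f| + |(f.coeff 1 : ℝ) * x| := abs_sub _ _
      _ ≤ _ := by linarith
  set n : ℕ := max (f.coeff 1).natAbs (f.coeff 0).natAbs with hn
  have hn1 : (1 : ℝ) ≤ n := by
    have : 1 ≤ n := le_max_of_le_left (Int.natAbs_pos.2 hlc)
    exact_mod_cast this
  have hnb : (n : ℝ) ≤ 2 * |(f.coeff 1 : ℝ)| := by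
    rw [hn]
    push_cast
    rw [hab, hab]
    exact max_le (by linarith) hb0
  have k1 := hlow (f.coeff 1) (f.coeff 0) hlc
  rw [← hev', ← hn] at k1
  -- lower bound for `n`
  have hn0 : (0 : ℝ) < n := by linarith
  have hnlow : (c * X / 12) ^ (1 - η) ≤ n := by
    have h4 : c * (n : ℝ) ^ (-(1 + η)) ≤ 12 / X := k1.trans hvf
    have h5 : c * X / 12 ≤ (n : ℝ) ^ (1 + η) := by
      rw [Real.rpow_neg hn0.le, ← div_eq_mul_inv, div_le_div_iff₀ (by positivity) hX0] at h4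
      linarith
    have h6 : (c * X / 12) ^ (1 - η) ≤ ((n : ℝ) ^ (1 + η)) ^ (1 - η) :=
      Real.rpow_le_rpow (by positivity) h5 (by linarith)
    rw [← Real.rpow_mul hn0.le] at h6
    refine h6.trans ?_
    calc (n : ℝ) ^ ((1 + η) * (1 - η)) ≤ (n : ℝ) ^ (1 : ℝ) :=
          Real.rpow_le_rpow_of_exponent_le hn1 (by nlinarith)
      _ = n := Real.rpow_one _
  refine ⟨-(f.coeff 0 : ℝ) / f.coeff 1, ⟨f, hirr, hdeg, ?_, hm2.trans hmm⟩, ?_⟩
  · show aeval (-(f.coeff 0 : ℝ) / f.coeff 1) f = 0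
    rw [aeval_eq_sum_range' (n := 2) (by omega)]
    simp only [Finset.sum_range_succ, Finset.range_zero, Finset.sum_empty, zsmul_eq_mul]
    field_simp
    ring
  · have e1 : x - -(f.coeff 0 : ℝ) / f.coeff 1 = aeval x f / f.coeff 1 := by
      rw [hev']
      field_simp
      ring
    rw [e1, abs_div]
    have hcX : 0 < c * X / 12 := by positivity
    have hp0 : 0 < (c * X / 12) ^ (1 - η) := Real.rpow_pos_of_pos hcX _
    have h7 : (c * X / 12) ^ (1 - η) / 2 ≤ |(f.coeff 1 : ℝ)| := by linarith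
    calc |aeval x f| / |(f.coeff 1 : ℝ)| ≤ (12 / X) / ((c * X / 12) ^ (1 - η) / 2) :=
          div_le_div₀ (by positivity) hvf (by positivity) h7
      _ = K1 * X ^ (-(2 - η)) := by
          have e2 : (c * X / 12) ^ (1 - η) = ((12 / c) ^ (1 - η))⁻¹ * X ^ (1 - η) := by
            rw [← Real.inv_rpow (by positivity), ← Real.mul_rpow (by positivity) hX0.le]
            congr 1
            field_simp
          have e3 : X ^ (-(2 - η)) = X⁻¹ * (X ^ (1 - η))⁻¹ := by
            rw [← Real.rpow_neg hX0.le (1 - η), ← Real.rpow_neg_one, ← Real.rpow_add hX0]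
            congr 1
            ring
          have h12 : 0 < (12 / c) ^ (1 - η) := by positivity
          have hXe : 0 < X ^ (1 - η) := by positivity
          rw [e2, e3, hK1]
          field_simp
          norm_num
      _ ≤ X ^ η * X ^ (-(2 - η)) := mul_le_mul_of_nonneg_right h1 (by positivity)
      _ = X ^ (-(2 - 2 * η)) := by
          rw [← Real.rpow_add hX0]
          congr 1
          ring
      _ ≤ X ^ (-γ') := Real.rpow_le_rpow_of_exponent_le (by linarith) (by linarith)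

lemma exists_large (δ A : ℝ) (hδ : 0 < δ) : ∃ n : ℝ, 1 ≤ n ∧ ∀ h : ℝ, n ≤ h →
    A < δ * Real.log h := by
  refine ⟨Real.exp (|A| / δ + 1), ?_, fun h hh => ?_⟩
  · apply Real.one_le_exp
    positivity
  · have h1 : |A| / δ + 1 ≤ Real.log h := by
      rw [Real.le_log_iff_exp_le (lt_of_lt_of_le (Real.exp_pos _) hh)]
      exact hh
    have h2 : |A| + δ ≤ δ * Real.log h := by
      have := mul_le_mul_of_nonneg_left h1 hδ.le
      have e : δ * (|A| / δ + 1) = |A| + δ := by field_simp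
      linarith
    have := le_abs_self A
    linarith

/-- very good approximation by quadratic numbers gives exceptions -/
theorem TQ_sub (κ μ τ : ℝ) (hκ : 0 ≤ κ) (hμ : 0 ≤ μ) (hτ : κ + 2 * μ < τ) :
    Lset TQ τ ∩ Set.Icc 0 1 ⊆ {x : ℝ | IsAlgebraic ℤ x} ∪ Exc κ μ := by
  rintro α ⟨hα, hα0, hα1⟩
  by_cases hA : IsAlgebraic ℤ α
  · exact Or.inl hA
  right
  intro C
  have hev : ∀ f : ℤ[X], f ≠ 0 → aeval α f ≠ 0 := fun f hf h0 => hA ⟨f, hf, h0⟩
  obtain ⟨n, hn1, hn⟩ := exists_large (τ - (κ + 2 * μ))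
    (2 * (μ * Real.log 80) + 2 * C + Real.log 16) (by linarith)
  obtain ⟨y, h, ⟨f, hirr, hdeg, hy, hmf⟩, hnh, hay⟩ := hα n
  simp only at hy hmf
  have hm1 := one_le_mm hirr.ne_zero
  have hm : 0 < mm f := by linarith
  have hh1 : 1 ≤ h := hm1.trans hmf
  have hh0 : 0 < h := by linarith
  have hLh : Real.log (mm f) ≤ Real.log h := Real.log_le_log hm hmf
  have hL0 : 0 ≤ Real.log (mm f) := Real.log_nonneg hm1
  -- the value at `α`
  have hay1 : |α - y| ≤ 1 := by
    refine hay.le.trans (Real.rpow_le_one_of_one_le_of_nonpos hh1 (by linarith))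
  have hval : |aeval α f| ≤ 16 * mm f * h ^ (-τ) := by
    have e1 : aeval α f = (α - y) * ((f.coeff 2 : ℝ) * (α + y) + f.coeff 1) := by
      rw [← sub_zero (aeval α f), ← hy, ← ev_cu f hdeg.le, ← ev_cu f hdeg.le]
      unfold Pool.Agent.X124.MV.ev cu
      ring
    have hc : ∀ j, |(f.coeff j : ℝ)| ≤ 4 * mm f := by
      intro j
      have h1 := coeff_le f j
      rw [hdeg] at h1
      norm_num at h1
      exact h1
    have hyα : |α + y| ≤ 3 := by
      rw [abs_le] at hay1 ⊢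
      constructor <;> linarith
    rw [e1, abs_mul]
    have h2 : |(f.coeff 2 : ℝ) * (α + y) + f.coeff 1| ≤ 16 * mm f := by
      calc _ ≤ |(f.coeff 2 : ℝ) * (α + y)| + |(f.coeff 1 : ℝ)| := abs_add_le _ _
        _ = |(f.coeff 2 : ℝ)| * |α + y| + |(f.coeff 1 : ℝ)| := by rw [abs_mul]
        _ ≤ 4 * mm f * 3 + 4 * mm f :=
            add_le_add (mul_le_mul (hc 2) hyα (abs_nonneg _) (by positivity)) (hc 1)
        _ = _ := by ring
    calc |α - y| * |(f.coeff 2 : ℝ) * (α + y) + f.coeff 1| ≤ h ^ (-τ) * (16 * mm f) :=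
          mul_le_mul hay.le h2 (abs_nonneg _) (by positivity)
      _ = _ := by ring
  have hlog := Real.log_le_log (abs_pos.2 (hev f hirr.ne_zero)) hval
  rw [Real.log_mul (by positivity) (by positivity), Real.log_mul (by norm_num) hm.ne',
    Real.log_rpow hh0] at hlog
  have hxc : aeval (y : ℂ) f = 0 := by
    have h2 : aeval (y : ℂ) f = ((aeval y f : ℝ) : ℂ) := aeval_algebraMap_apply ℂ y f
    rw [h2, hy]
    simp
  refine ⟨(y : ℂ), f, hirr, Or.inr hdeg, hxc, ?_⟩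
  unfold prox
  rw [prox_one f hirr.ne_zero α (hev f hirr.ne_zero), hdeg]
  push_cast
  have hB0 : 0 ≤ Real.log (max 1 |α|) := Real.log_nonneg (le_max_left _ _)
  have h6 := lD_le f hirr hdeg (y : ℂ) hxc
  have h7 : μ * lD (y : ℂ) ≤ μ * (Real.log h + Real.log 80) :=
    mul_le_mul_of_nonneg_left (by linarith) hμ
  have h8 := hn h hnh
  have h9 : κ * Real.log (mm f) ≤ κ * Real.log h := mul_le_mul_of_nonneg_left hLh hκ
  rw [lt_div_iff₀ (by norm_num)]
  nlinarith

/-- very good approximation by rational numbers gives exceptions -/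
theorem TL_sub (κ μ τ : ℝ) (hκ : 0 ≤ κ) (hτ : κ < τ) :
    Lset TL τ ∩ Set.Icc 0 1 ⊆ {x : ℝ | IsAlgebraic ℤ x} ∪ Exc κ μ := by
  rintro α ⟨hα, hα0, hα1⟩
  by_cases hA : IsAlgebraic ℤ α
  · exact Or.inl hA
  right
  intro C
  have hev : ∀ f : ℤ[X], f ≠ 0 → aeval α f ≠ 0 := fun f hf h0 => hA ⟨f, hf, h0⟩
  obtain ⟨n, hn1, hn⟩ := exists_large (τ - κ) (C + Real.log 2) (by linarith)
  obtain ⟨y, h, ⟨f, hirr, hdeg, hy, hmf⟩, hnh, hay⟩ := hα n
  simp only at hy hmf
  have hm1 := one_le_mm hirr.ne_zero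
  have hm : 0 < mm f := by linarith
  have hh1 : 1 ≤ h := hm1.trans hmf
  have hh0 : 0 < h := by linarith
  have hLh : Real.log (mm f) ≤ Real.log h := Real.log_le_log hm hmf
  have hL0 : 0 ≤ Real.log (mm f) := Real.log_nonneg hm1
  have hval : |aeval α f| ≤ 2 * mm f * h ^ (-τ) := by
    have ha : ∀ z : ℝ, aeval z f = (f.coeff 1 : ℝ) * z + f.coeff 0 := by
      intro z
      rw [aeval_eq_sum_range' (n := 2) (by omega)]
      simp only [Finset.sum_range_succ, Finset.range_zero, Finset.sum_empty, zsmul_eq_mul]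
      ring
    have e1 : aeval α f = (α - y) * (f.coeff 1 : ℝ) := by
      rw [← sub_zero (aeval α f), ← hy, ha, ha]
      ring
    have h1 := coeff_le f 1
    rw [hdeg, pow_one] at h1
    have h1' : |(f.coeff 1 : ℝ)| ≤ 2 * mm f := by exact_mod_cast h1
    rw [e1, abs_mul]
    calc |α - y| * |(f.coeff 1 : ℝ)| ≤ h ^ (-τ) * (2 * mm f) :=
          mul_le_mul hay.le h1' (abs_nonneg _) (by positivity)
      _ = _ := by ring
  have hlog := Real.log_le_log (abs_pos.2 (hev f hirr.ne_zero)) hval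
  rw [Real.log_mul (by positivity) (by positivity), Real.log_mul (by norm_num) hm.ne',
    Real.log_rpow hh0] at hlog
  have hxc : aeval (y : ℂ) f = 0 := by
    have h2 : aeval (y : ℂ) f = ((aeval y f : ℝ) : ℂ) := aeval_algebraMap_apply ℂ y f
    rw [h2, hy]
    simp
  refine ⟨(y : ℂ), f, hirr, Or.inl hdeg, hxc, ?_⟩
  unfold prox
  rw [prox_one f hirr.ne_zero α (hev f hirr.ne_zero), hdeg, lD_lin f hdeg (y : ℂ) hxc]
  push_cast
  have hB0 : 0 ≤ Real.log (max 1 |α|) := Real.log_nonneg (le_max_left _ _)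
  have h8 := hn h hnh
  have h9 : κ * Real.log (mm f) ≤ κ * Real.log h := mul_le_mul_of_nonneg_left hLh hκ
  rw [div_one, div_one]
  nlinarith

lemma exc_mono {κ κ' μ μ' : ℝ} (h1 : κ ≤ κ') (h2 : μ ≤ μ') : Exc κ' μ' ⊆ Exc κ μ := by
  intro α hα C
  obtain ⟨x, f, hirr, hd, hx, h⟩ := hα C
  refine ⟨x, f, hirr, hd, hx, lt_of_le_of_lt ?_ h⟩
  have hL0 : 0 ≤ Real.log (mm f) := Real.log_nonneg (one_le_mm hirr.ne_zero)
  have h3 : 0 ≤ Real.log (mm f) / f.natDegree := div_nonneg hL0 (Nat.cast_nonneg _)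
  have h4 := lD_nonneg x
  nlinarith [mul_le_mul_of_nonneg_right h1 h3, mul_le_mul_of_nonneg_right h2 h4]

/-- the lower bound -/
theorem dim_ge' (κ μ : ℝ) (hκ : 2 ≤ κ) (hμ : 0 ≤ μ) (h3 : 3 ≤ κ + 2 * μ) :
    ENNReal.ofReal (max (2 / κ) (3 / (κ + 2 * μ))) ≤ dimH (Exc κ μ) := by
  have hA : ({x : ℝ | IsAlgebraic ℤ x}).Countable := Algebraic.countable ℤ ℝ
  have h1 : ENNReal.ofReal (2 / κ) ≤ dimH (Exc κ μ) :=
    dim_ge (T := TL) (by norm_num) ae_TL hA hκ fun τ hτ => TL_sub κ μ τ (by linarith) hτ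
  have h2 : ENNReal.ofReal (3 / (κ + 2 * μ)) ≤ dimH (Exc κ μ) :=
    dim_ge (T := TQ) (by norm_num) ae_TQ hA h3 fun τ hτ => TQ_sub κ μ τ (by linarith) hμ hτ
  rcases le_total (2 / κ) (3 / (κ + 2 * μ)) with h | h
  · rw [max_eq_right h]; exact h2
  · rw [max_eq_left h]; exact h1

/-- **The dimension of the exceptional set.** -/
theorem dim_eq (κ μ : ℝ) (hκ : 0 < κ) (hμ : 0 ≤ μ) :
    dimH (Exc κ μ) = ENNReal.ofReal (min 1 (max (2 / κ) (3 / (κ + 2 * μ)))) := by
  have hle1 : dimH (Exc κ μ) ≤ 1 := by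
    have := dimH_mono (Set.subset_univ (Exc κ μ))
    rwa [Real.dimH_univ] at this
  have hκμ : 0 < κ + 2 * μ := by linarith
  by_cases hbig : 2 < κ ∧ 3 < κ + 2 * μ
  · obtain ⟨h2, h3⟩ := hbig
    have hM1 : max (2 / κ) (3 / (κ + 2 * μ)) ≤ 1 := by
      apply max_le
      · rw [div_le_one hκ]; exact h2.le
      · rw [div_le_one hκμ]; exact h3.le
    rw [min_eq_right hM1]
    exact le_antisymm (dim_le κ μ h2 hμ h3) (dim_ge' κ μ h2.le hμ h3.le)
  · have hM1 : 1 ≤ max (2 / κ) (3 / (κ + 2 * μ)) := by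
      by_cases h2 : 2 < κ
      · have h3 : κ + 2 * μ ≤ 3 := by
          by_contra hcon
          exact hbig ⟨h2, not_le.1 hcon⟩
        exact le_max_of_le_right (by rw [one_le_div hκμ]; exact h3)
      · exact le_max_of_le_left (by rw [one_le_div hκ]; exact not_lt.1 h2)
    rw [min_eq_left hM1, ENNReal.ofReal_one]
    apply le_antisymm hle1
    -- monotonicity
    by_cases h2 : 2 < κ
    · have h3 : κ + 2 * μ ≤ 3 := by
        by_contra hcon
        exact hbig ⟨h2, not_le.1 hcon⟩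
      have h4 := dim_ge' κ ((3 - κ) / 2) h2.le (by linarith) (by linarith)
      have h5 : (1 : ℝ) ≤ max (2 / κ) (3 / (κ + 2 * ((3 - κ) / 2))) := by
        apply le_max_of_le_right
        rw [one_le_div (by linarith)]
        linarith
      calc (1 : ℝ≥0∞) = ENNReal.ofReal 1 := ENNReal.ofReal_one.symm
        _ ≤ _ := ENNReal.ofReal_le_ofReal h5
        _ ≤ _ := h4
        _ ≤ _ := dimH_mono (exc_mono le_rfl (by linarith))
    · have hκ2 : κ ≤ 2 := not_lt.1 h2
      have h4 := dim_ge' 2 (max μ (1 / 2)) le_rfl (le_max_of_le_left hμ) (by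
        have := le_max_right μ (1 / 2)
        linarith)
      have h5 : (1 : ℝ) ≤ max (2 / 2) (3 / (2 + 2 * max μ (1 / 2))) := by
        apply le_max_of_le_left
        norm_num
      calc (1 : ℝ≥0∞) = ENNReal.ofReal 1 := ENNReal.ofReal_one.symm
        _ ≤ _ := ENNReal.ofReal_le_ofReal h5
        _ ≤ _ := h4
        _ ≤ _ := dimH_mono (exc_mono hκ2 (le_max_left _ _))

end Pool.Agent.X124.MD
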